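import Mathlib
import Pool.Agent.Helper259.AbsHt

set_option autoImplicit false

/-!
# Solutions of polynomial systems of bounded height

If a polynomial system over `Qbar` with parameters has a solution, it has one whose height is
bounded linearly by the height of the parameters. The proof is by an ultraproduct and the
Nullstellensatz: germs of sequences of bounded height form an algebraically closed field.
-/

namespace Pool.Agent.H813R3.HtSol

open Pool.Agent.Helper259 Pool.Agent.Helper259.AbsHt Filter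

/-- affine height -/
noncomputable def h1 (a : Qbar) : ℝ := absLogHeight ![1, a]

theorem h1_nonneg (a : Qbar) : 0 ≤ h1 a := absLogHeight_nonneg _

theorem vec_ne (a : Qbar) : (![1, a] : Fin 2 → Qbar) ≠ 0 := by
  intro h
  have := congrFun h 0
  simp at this

theorem h1_mul (a b : Qbar) : h1 (a * b) ≤ h1 a + h1 b := by
  unfold h1
  rw [← absLogHeight_segre (vec_ne a) (vec_ne b)]
  have := absLogHeight_comp_le (![(0, 0), (1, 1)] : Fin 2 → Fin 2 × Fin 2)
    (fun p : Fin 2 × Fin 2 => (![1, a] : Fin 2 → Qbar) p.1 * (![1, b] : Fin 2 → Qbar) p.2)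
  have e : (fun p : Fin 2 × Fin 2 => (![1, a] : Fin 2 → Qbar) p.1 * (![1, b] : Fin 2 → Qbar) p.2) ∘
      (![(0, 0), (1, 1)] : Fin 2 → Fin 2 × Fin 2) = ![1, a * b] := by
    funext j
    fin_cases j <;> simp
  rwa [e] at this

theorem h1_add : ∃ c : ℝ, 0 ≤ c ∧ ∀ a b : Qbar, h1 (a + b) ≤ c + h1 a + h1 b := by
  set A : Fin 2 × (Fin 2 × Fin 2) → Qbar := fun q =>
    if q.1 = 0 then (if q.2 = (0, 0) then 1 else 0) else
      (if q.2 = (0, 1) ∨ q.2 = (1, 0) then 1 else 0) with hA
  refine ⟨Real.log (Nat.card (Fin 2 × Fin 2)) + absLogHeight A, ?_, fun a b => ?_⟩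
  · have := absLogHeight_nonneg A
    have h2 : 0 ≤ Real.log (Nat.card (Fin 2 × Fin 2)) := Real.log_natCast_nonneg _
    linarith
  · unfold h1
    have h1' := absLogHeight_linear A
      (fun p : Fin 2 × Fin 2 => (![1, a] : Fin 2 → Qbar) p.1 * (![1, b] : Fin 2 → Qbar) p.2)
    rw [absLogHeight_segre (vec_ne a) (vec_ne b)] at h1'
    have e : (fun j => ∑ i, A (j, i) *
        ((![1, a] : Fin 2 → Qbar) i.1 * (![1, b] : Fin 2 → Qbar) i.2)) = ![1, a + b] := by
      funext j
      rw [Fintype.sum_prod_type]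
      fin_cases j
      · simp [hA, Fin.sum_univ_two]
      · simp [hA, Fin.sum_univ_two]
        ring
    rw [e] at h1'
    linarith

theorem h1_inv (a : Qbar) : h1 a⁻¹ ≤ h1 a := by
  by_cases ha : a = 0
  · subst ha; simp
  · unfold h1
    have e : (![1, a⁻¹] : Fin 2 → Qbar) = a⁻¹ • (![1, a] ∘ ![1, 0]) := by
      funext j
      fin_cases j <;> simp [ha]
    rw [e, absLogHeight_smul _ (inv_ne_zero ha)]
    exact absLogHeight_comp_le _ _

open Polynomial HtPoly in
theorem h1_root (n : ℕ) : ∃ C : ℝ, 0 ≤ C ∧ ∀ (P : Qbar[X]) (α : Qbar), P.Monic →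
    P.natDegree = n → P.eval α = 0 → h1 α ≤ C + ∑ i : Fin (n + 1), h1 (P.coeff i) := by
  obtain ⟨C, hC⟩ := absLogHeight_root n
  refine ⟨|C|, abs_nonneg C, fun P α hP hn hr => ?_⟩
  have h := hC P α hP.ne_zero hn.le hr
  have h2 := absLogHeight_le_sum (cv n P)
  have h3 : ∀ i, absLogHeight ![1, cv n P i] = h1 (P.coeff i) := fun i => rfl
  simp only [h3] at h2
  have := le_abs_self C
  unfold h1 at *
  linarith

section Ultra

variable (U : Ultrafilter ℕ) (s : ℕ → ℝ)

/-- the ultrapower of `Qbar` -/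
abbrev Star : Type := Germ (U : Filter ℕ) Qbar

/-- sequences of height `O(s)` -/
def Bdd (f : ℕ → Qbar) : Prop := ∃ C : ℝ, ∀ᶠ n in (U : Filter ℕ), h1 (f n) ≤ C * s n

variable {U s}

theorem Bdd.congr {f g : ℕ → Qbar} (hf : Bdd U s f) (h : f =ᶠ[(U : Filter ℕ)] g) : Bdd U s g := by
  obtain ⟨C, hC⟩ := hf
  refine ⟨C, ?_⟩
  filter_upwards [hC, h] with n h1 h2
  rwa [← h2]

variable (hs : ∀ n, 1 ≤ s n)

include hs

theorem Bdd.const (c : Qbar) : Bdd U s (fun _ => c) := by
  refine ⟨h1 c, Eventually.of_forall fun n => ?_⟩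
  have := h1_nonneg c
  have := hs n
  nlinarith

theorem Bdd.mul {f g : ℕ → Qbar} (hf : Bdd U s f) (hg : Bdd U s g) :
    Bdd U s (fun n => f n * g n) := by
  obtain ⟨C, hC⟩ := hf
  obtain ⟨D, hD⟩ := hg
  refine ⟨C + D, ?_⟩
  filter_upwards [hC, hD] with n a b
  have := h1_mul (f n) (g n)
  linarith

theorem Bdd.add {f g : ℕ → Qbar} (hf : Bdd U s f) (hg : Bdd U s g) :
    Bdd U s (fun n => f n + g n) := by
  obtain ⟨C, hC⟩ := hf
  obtain ⟨D, hD⟩ := hg
  obtain ⟨c, hc0, hc⟩ := h1_add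
  refine ⟨c + C + D, ?_⟩
  filter_upwards [hC, hD] with n a b
  have := hc (f n) (g n)
  have := hs n
  nlinarith

theorem Bdd.inv {f : ℕ → Qbar} (hf : Bdd U s f) : Bdd U s (fun n => (f n)⁻¹) := by
  obtain ⟨C, hC⟩ := hf
  refine ⟨C, ?_⟩
  filter_upwards [hC] with n a
  exact (h1_inv (f n)).trans a

theorem Bdd.neg {f : ℕ → Qbar} (hf : Bdd U s f) : Bdd U s (fun n => - f n) := by
  have := Bdd.mul hs (Bdd.const hs (-1)) hf
  simpa using this

/-- germs of sequences of bounded height -/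
def BF : Subfield (Star U) where
  carrier := {a | ∃ f : ℕ → Qbar, Bdd U s f ∧ (f : Star U) = a}
  mul_mem' := by
    rintro _ _ ⟨f, hf, rfl⟩ ⟨g, hg, rfl⟩
    exact ⟨_, Bdd.mul hs hf hg, rfl⟩
  one_mem' := ⟨fun _ => 1, Bdd.const hs 1, rfl⟩
  add_mem' := by
    rintro _ _ ⟨f, hf, rfl⟩ ⟨g, hg, rfl⟩
    exact ⟨_, Bdd.add hs hf hg, rfl⟩
  zero_mem' := ⟨fun _ => 0, Bdd.const hs 0, rfl⟩
  neg_mem' := by
    rintro _ ⟨f, hf, rfl⟩
    exact ⟨_, Bdd.neg hs hf, rfl⟩
  inv_mem' := by
    rintro _ ⟨f, hf, rfl⟩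
    exact ⟨_, Bdd.inv hs hf, rfl⟩

theorem mem_BF {a : Star U} : a ∈ BF (U := U) hs ↔ ∃ f : ℕ → Qbar, Bdd U s f ∧ (f : Star U) = a :=
  Iff.rfl

open Polynomial in
theorem BF_algClosed : IsAlgClosed (BF (U := U) hs) := by
  apply IsAlgClosed.of_exists_root
  intro p hp hirr
  set d := p.natDegree with hd
  have hd1 : 1 ≤ d := Nat.one_le_iff_ne_zero.2 (hirr.natDegree_pos).ne'
  -- representatives
  have hrep : ∀ i : ℕ, ∃ f : ℕ → Qbar, Bdd U s f ∧ (f : Star U) = (p.coeff i : Star U) :=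
    fun i => (p.coeff i).2
  choose f hfB hfe using hrep
  -- polynomials over Qbar
  set P : ℕ → Qbar[X] := fun n => X ^ d + ∑ i ∈ Finset.range d, C (f i n) * X ^ i with hP
  have hdeg : ∀ n, (∑ i ∈ Finset.range d, C (f i n) * X ^ i : Qbar[X]).degree < d := by
    intro n
    rw [Polynomial.degree_lt_iff_coeff_zero]
    intro m hm
    rw [finset_sum_coeff]
    apply Finset.sum_eq_zero
    intro i hi
    rw [Finset.mem_range] at hi
    rw [coeff_C_mul, coeff_X_pow, if_neg (by omega), mul_zero]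
  have hmon : ∀ n, (P n).Monic := fun n => monic_X_pow_add (hdeg n)
  have hnat : ∀ n, (P n).natDegree = d := by
    intro n
    rw [hP]
    simp only
    rw [natDegree_add_eq_left_of_degree_lt]
    · simp
    · rw [degree_X_pow]; exact hdeg n
  have hcoef : ∀ n i, i < d → (P n).coeff i = f i n := by
    intro n i hi
    simp only [hP]
    rw [coeff_add, coeff_X_pow, if_neg (by omega), zero_add, finset_sum_coeff]
    rw [Finset.sum_eq_single i]
    · simp
    · intro b _ hb
      rw [coeff_C_mul, coeff_X_pow, if_neg (by omega), mul_zero]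
    · intro h
      exact absurd (Finset.mem_range.2 hi) h
  have hroot : ∀ n, ∃ α : Qbar, (P n).eval α = 0 := by
    intro n
    obtain ⟨α, hα⟩ := IsAlgClosed.exists_root (P n) (by
      rw [degree_eq_natDegree (hmon n).ne_zero, hnat n]
      exact_mod_cast (by omega : d ≠ 0))
    exact ⟨α, hα⟩
  choose α hα using hroot
  have hαB : Bdd U s α := by
    obtain ⟨C, hC0, hC⟩ := h1_root d
    have hfin : ∃ D : ℝ, ∀ᶠ n in (U : Filter ℕ), ∑ i : Fin (d + 1), h1 ((P n).coeff i) ≤ D * s n := by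
      have hch : ∀ i : Fin (d + 1), ∃ D : ℝ, ∀ᶠ n in (U : Filter ℕ), h1 ((P n).coeff i) ≤ D * s n := by
        intro i
        by_cases hi : (i : ℕ) < d
        · obtain ⟨D, hD⟩ := hfB i
          refine ⟨D, ?_⟩
          filter_upwards [hD] with n hn
          rwa [hcoef n i hi]
        · have hid : (i : ℕ) = d := by have := i.2; omega
          obtain ⟨D, hD⟩ := Bdd.const (U := U) hs (1 : Qbar)
          refine ⟨D, ?_⟩
          filter_upwards [hD] with n hn
          have : (P n).coeff i = 1 := by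
            rw [hid, ← hnat n]
            exact hmon n
          rwa [this]
      choose D hD using hch
      refine ⟨∑ i, D i, ?_⟩
      filter_upwards [eventually_all.2 hD] with n hn
      rw [Finset.sum_mul]
      exact Finset.sum_le_sum fun i _ => hn i
    obtain ⟨D, hD⟩ := hfin
    refine ⟨C + D, ?_⟩
    filter_upwards [hD] with n hn
    have := hC (P n) (α n) (hmon n) (hnat n) (hα n)
    have := hs n
    nlinarith
  refine ⟨⟨(α : Star U), ⟨α, hαB, rfl⟩⟩, ?_⟩
  apply Subtype.ext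
  have hsum : ((p.eval (⟨(α : Star U), ⟨α, hαB, rfl⟩⟩ : BF (U := U) hs) : BF (U := U) hs) : Star U) =
      (α : Star U) ^ d + ∑ i ∈ Finset.range d, (p.coeff i : Star U) * (α : Star U) ^ i := by
    rw [eval_eq_sum_range, ← hd, Finset.sum_range_succ]
    have : p.coeff d = 1 := hp
    rw [this]
    push_cast
    rw [one_mul, add_comm]
  rw [hsum]
  have e1 : ∀ i : ℕ, (p.coeff i : Star U) = ((f i : ℕ → Qbar) : Star U) := fun i => (hfe i).symm
  simp_rw [e1]
  have e2 : (α : Star U) ^ d + ∑ i ∈ Finset.range d, (f i : Star U) * (α : Star U) ^ i =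
      Germ.coeRingHom (U : Filter ℕ) (α ^ d + ∑ i ∈ Finset.range d, f i * α ^ i) := by
    rw [map_add, map_pow, map_sum]
    simp only [map_mul, map_pow]
    rfl
  rw [e2]
  have e3 : (α ^ d + ∑ i ∈ Finset.range d, f i * α ^ i : ℕ → Qbar) = 0 := by
    funext n
    have := hα n
    simp only [hP, eval_add, eval_pow, eval_X, eval_finset_sum, eval_mul, eval_C] at this
    simpa using this
  rw [e3, map_zero]
  rfl

end Ultra

end Pool.Agent.H813R3.HtSol
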