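import Mathlib
import Pool.Agent.H813R3.HtSol

set_option autoImplicit false

namespace Pool.Agent.H813R3.HtSol

open Pool.Agent.Helper259 Pool.Agent.Helper259.AbsHt Filter MvPolynomial

/-- constants -/
noncomputable def kap (U : Ultrafilter ℕ) : Qbar →+* Star U :=
  (Germ.coeRingHom (U : Filter ℕ)).comp (Pi.ringHom (fun _ : ℕ => RingHom.id Qbar))

theorem kap_apply (U : Ultrafilter ℕ) (c : Qbar) : kap U c = ((fun _ : ℕ => c : ℕ → Qbar) : Star U) := rfl

theorem los {ρ : Type} (U : Ultrafilter ℕ) (F : ρ → ℕ → Qbar) (p : MvPolynomial ρ Qbar) :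
    eval₂Hom (kap U) (fun a => ((F a : ℕ → Qbar) : Star U)) p =
      ((fun n => eval (fun a => F a n) p : ℕ → Qbar) : Star U) := by
  have h : eval₂Hom (kap U) (fun a => ((F a : ℕ → Qbar) : Star U)) =
      (Germ.coeRingHom (U : Filter ℕ)).comp (Pi.ringHom (fun n : ℕ => eval (fun a => F a n))) := by
    apply MvPolynomial.ringHom_ext
    · intro r
      rw [eval₂Hom_C, kap_apply]
      show _ = Germ.coeRingHom (U : Filter ℕ) (fun n => eval (fun a => F a n) (C r))
      simp only [eval_C]
      rfl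
    · intro a
      rw [eval₂Hom_X']
      show _ = Germ.coeRingHom (U : Filter ℕ) (fun n => eval (fun a => F a n) (X a))
      simp only [eval_X]
      rfl
  rw [h]
  rfl

theorem bounded_solution {σ τ ι : Type} [Fintype σ] [Fintype τ] [Finite ι]
    (p : ι → MvPolynomial (σ ⊕ τ) Qbar) :
    ∃ C : ℝ, 0 ≤ C ∧ ∀ y : τ → Qbar, (∃ x : σ → Qbar, ∀ i, eval (Sum.elim x y) (p i) = 0) →
      ∃ x : σ → Qbar, (∀ i, eval (Sum.elim x y) (p i) = 0) ∧
        ∀ a, h1 (x a) ≤ C * (1 + ∑ b, h1 (y b)) := by
  classical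
  by_contra hcon
  push Not at hcon
  have hN : ∀ n : ℕ, ∃ y : τ → Qbar, (∃ x : σ → Qbar, ∀ i, eval (Sum.elim x y) (p i) = 0) ∧
      ∀ x : σ → Qbar, (∀ i, eval (Sum.elim x y) (p i) = 0) →
        ∃ a, (n : ℝ) * (1 + ∑ b, h1 (y b)) < h1 (x a) := fun n => hcon n (Nat.cast_nonneg n)
  choose y hx hno using hN
  choose x hx using hx
  let U : Ultrafilter ℕ := hyperfilter ℕ
  set s : ℕ → ℝ := fun n => 1 + ∑ b, h1 (y n b) with hsdef
  have hs : ∀ n, 1 ≤ s n := by
    intro n
    have : 0 ≤ ∑ b, h1 (y n b) := Finset.sum_nonneg fun b _ => h1_nonneg _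
    simp only [hsdef]; linarith
  have hclosed : IsAlgClosed (BF (U := U) hs) := BF_algClosed hs
  -- constants in BF
  have hkap : ∀ c, kap U c ∈ BF (U := U) hs := fun c => ⟨_, Bdd.const hs c, rfl⟩
  let κ : Qbar →+* BF (U := U) hs := (kap U).codRestrict (BF (U := U) hs) hkap
  have hyB : ∀ b, Bdd U s (fun n => y n b) := by
    intro b
    refine ⟨1, Eventually.of_forall fun n => ?_⟩
    simp only [hsdef, one_mul]
    have : h1 (y n b) ≤ ∑ b, h1 (y n b) :=
      Finset.single_le_sum (f := fun b => h1 (y n b)) (fun b _ => h1_nonneg _) (Finset.mem_univ b)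
    linarith
  let Y : τ → BF (U := U) hs := fun b => ⟨((fun n => y n b : ℕ → Qbar) : Star U), ⟨_, hyB b, rfl⟩⟩
  let q : ι → MvPolynomial σ (BF (U := U) hs) := fun i =>
    eval₂Hom (MvPolynomial.C.comp κ) (Sum.elim X (fun b => C (Y b))) (p i)
  -- evaluation of q
  have hq : ∀ (i : ι) (z : σ → ℕ → Qbar),
      eval₂Hom (BF (U := U) hs).subtype (fun a => ((z a : ℕ → Qbar) : Star U)) (q i) =
        ((fun n => eval (Sum.elim (fun a => z a n) (y n)) (p i) : ℕ → Qbar) : Star U) := by
    intro i z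
    have e1 : (fun n => eval (Sum.elim (fun a => z a n) (y n)) (p i) : ℕ → Qbar) =
        fun n => eval (fun c => (Sum.elim z (fun b n => y n b) : σ ⊕ τ → ℕ → Qbar) c n) (p i) := by
      funext n
      congr 2
      funext c
      cases c <;> rfl
    rw [e1, ← los]
    have h : (eval₂Hom (BF (U := U) hs).subtype (fun a => ((z a : ℕ → Qbar) : Star U))).comp
        (eval₂Hom (MvPolynomial.C.comp κ) (Sum.elim X (fun b => C (Y b)))) =
        eval₂Hom (kap U) (fun a => (((Sum.elim z (fun b n => y n b) : σ ⊕ τ → ℕ → Qbar) a :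
          ℕ → Qbar) : Star U)) := by
      apply MvPolynomial.ringHom_ext
      · intro r
        simp only [RingHom.comp_apply, eval₂Hom_C]
        rfl
      · intro a
        cases a with
        | inl a => simp only [RingHom.comp_apply, eval₂Hom_X', Sum.elim_inl]
        | inr b =>
          simp only [RingHom.comp_apply, eval₂Hom_X', Sum.elim_inr, eval₂Hom_C]
          rfl
    exact congrArg (fun φ => φ (p i)) h
  -- the ideal
  let I : Ideal (MvPolynomial σ (BF (U := U) hs)) := Ideal.span (Set.range q)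
  have hne : (zeroLocus (BF (U := U) hs) I).Nonempty := by
    by_contra hemp
    rw [Set.not_nonempty_iff_eq_empty] at hemp
    have h2 := vanishingIdeal_zeroLocus_eq_radical (K := BF (U := U) hs) I
    rw [hemp, vanishingIdeal_empty] at h2
    have h3 : I = ⊤ := Ideal.radical_eq_top.1 h2.symm
    have h4 : ∀ g ∈ I, eval₂Hom (BF (U := U) hs).subtype
        (fun a => ((fun n => x n a : ℕ → Qbar) : Star U)) g = 0 := by
      intro g hg
      have : I ≤ RingHom.ker (eval₂Hom (BF (U := U) hs).subtype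
          (fun a => ((fun n => x n a : ℕ → Qbar) : Star U))) := by
        apply Ideal.span_le.2
        rintro _ ⟨i, rfl⟩
        rw [SetLike.mem_coe, RingHom.mem_ker, hq i (fun a n => x n a)]
        have : (fun n => eval (Sum.elim (fun a => x n a) (y n)) (p i) : ℕ → Qbar) = fun _ => 0 := by
          funext n
          exact hx n i
        rw [this]
        rfl
      exact this hg
    have h5 := h4 1 (by rw [h3]; exact Submodule.mem_top)
    rw [map_one] at h5
    exact one_ne_zero h5
  obtain ⟨z, hz⟩ := hne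
  have hzrep : ∀ a, ∃ f : ℕ → Qbar, Bdd U s f ∧ (f : Star U) = (z a : Star U) := fun a => (z a).2
  choose Z hZB hZe using hzrep
  have hsol : ∀ i, ∀ᶠ n in (U : Filter ℕ), eval (Sum.elim (fun a => Z a n) (y n)) (p i) = 0 := by
    intro i
    have h1 : aeval z (q i) = 0 := hz (q i) (Ideal.subset_span ⟨i, rfl⟩)
    have h2 := hq i Z
    have h3 : eval₂Hom (BF (U := U) hs).subtype (fun a => ((Z a : ℕ → Qbar) : Star U)) (q i) =
        ((aeval z (q i) : BF (U := U) hs) : Star U) := by
      have : (eval₂Hom (BF (U := U) hs).subtype (fun a => ((Z a : ℕ → Qbar) : Star U))) =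
          (BF (U := U) hs).subtype.comp (aeval z : MvPolynomial σ (BF (U := U) hs) →ₐ[BF (U := U) hs]
            (BF (U := U) hs)).toRingHom := by
        apply MvPolynomial.ringHom_ext
        · intro r
          simp
        · intro a
          simp [hZe a]
      rw [this]
      rfl
    rw [h3, h1] at h2
    have h4 : ((fun n => eval (Sum.elim (fun a => Z a n) (y n)) (p i) : ℕ → Qbar) : Star U) =
        ((fun _ => 0 : ℕ → Qbar) : Star U) := h2.symm
    exact Germ.coe_eq.1 h4
  have hbd : ∀ a, ∃ C : ℝ, ∀ᶠ n in (U : Filter ℕ), h1 (Z a n) ≤ C * s n := hZB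
  choose C hC using hbd
  have hlarge : ∀ a, ∀ᶠ n : ℕ in (U : Filter ℕ), C a ≤ n := by
    intro a
    have h1 : ∀ᶠ n : ℕ in atTop, C a ≤ n := by
      obtain ⟨N, hN⟩ := exists_nat_ge (C a)
      filter_upwards [eventually_ge_atTop N] with n hn
      exact hN.trans (by exact_mod_cast hn)
    rw [← Nat.cofinite_eq_atTop] at h1
    exact hyperfilter_le_cofinite h1
  have hall := (eventually_all.2 hsol).and ((eventually_all.2 hC).and (eventually_all.2 hlarge))
  obtain ⟨n, hn1, hn2, hn3⟩ := hall.exists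
  obtain ⟨a, ha⟩ := hno n (fun a => Z a n) hn1
  have h6 := hn2 a
  have h7 := hn3 a
  have h8 := hs n
  have h9 : C a * s n ≤ n * s n := mul_le_mul_of_nonneg_right h7 (by linarith)
  simp only [hsdef] at h6 h9
  linarith

end Pool.Agent.H813R3.HtSol
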