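import Mathlib
import Pool.Agent.H813R3.HtSol2

set_option autoImplicit false

namespace Pool.Agent.H813R3.HtGeo

open Pool.Agent.Helper259 Pool.Agent.Helper259.AbsHt MvPolynomial Pool.Agent.H813R3.HtSol

/-- projective space over an algebraic closure of `ℚ` -/
abbrev PP (N : ℕ) : Type := Projectivization Qbar (Fin (N + 1) → Qbar)

/-- standard absolute logarithmic height on projective space -/
noncomputable def height {N : ℕ} (P : PP N) : ℝ := absLogHeight P.rep

/-- Zariski closed subsets of projective space -/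
def IsClosedSet {N : ℕ} (Z : Set (PP N)) : Prop :=
  ∃ S : Set (MvPolynomial (Fin (N + 1)) Qbar), (∀ f ∈ S, ∃ e : ℕ, f.IsHomogeneous e) ∧
    Z = {P | ∀ f ∈ S, eval P.rep f = 0}

/-- locally closed subsets of projective space -/
def IsQuasiProj {N : ℕ} (X : Set (PP N)) : Prop :=
  ∃ Z W : Set (PP N), IsClosedSet Z ∧ IsClosedSet W ∧ X = Z \ W

/-- regular maps: locally in the Zariski topology given by homogeneous polynomials of the same
degree without common zero -/
def IsRegular {N M : ℕ} {X : Set (PP N)} (π : X → PP M) : Prop :=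
  ∀ x : X, ∃ (g : MvPolynomial (Fin (N + 1)) Qbar) (e : ℕ)
    (F : Fin (M + 1) → MvPolynomial (Fin (N + 1)) Qbar),
    (∃ k : ℕ, g.IsHomogeneous k) ∧ (∀ i, (F i).IsHomogeneous e) ∧ eval x.1.rep g ≠ 0 ∧
    ∀ z : X, eval z.1.rep g ≠ 0 →
      ∃ h : (fun i => eval z.1.rep (F i)) ≠ 0, π z = Projectivization.mk Qbar _ h

theorem eval_smul {ρ : Type} [Fintype ρ] {f : MvPolynomial ρ Qbar} {e : ℕ} (hf : f.IsHomogeneous e)
    (c : Qbar) (v : ρ → Qbar) : eval (c • v) f = c ^ e * eval v f := by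
  rw [eval_eq, eval_eq, Finset.mul_sum]
  refine Finset.sum_congr rfl fun d hd => ?_
  have hdeg : ∑ i ∈ d.support, d i = e := by
    have := hf (mem_support_iff.mp hd)
    rw [← this]
    simp [Finsupp.weight_apply, Finsupp.sum]
  simp only [Pi.smul_apply, smul_eq_mul, mul_pow, Finset.prod_mul_distrib, Finset.prod_pow_eq_pow_sum,
    hdeg]
  ring

theorem height_mk {N : ℕ} (v : Fin (N + 1) → Qbar) (hv : v ≠ 0) :
    height (Projectivization.mk Qbar v hv) = absLogHeight v := by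
  obtain ⟨a, ha⟩ := Projectivization.exists_smul_eq_mk_rep Qbar v hv
  unfold height
  rw [← ha, Units.smul_def, absLogHeight_smul _ a.ne_zero]

theorem height_nonneg {N : ℕ} (P : PP N) : 0 ≤ height P := absLogHeight_nonneg _

/-- finite subfamily with the same span -/
theorem fin_span {ρ : Type} [Finite ρ] (S : Set (MvPolynomial ρ Qbar)) :
    ∃ T : Finset (MvPolynomial ρ Qbar), (T : Set (MvPolynomial ρ Qbar)) ⊆ S ∧
      ∀ v : ρ → Qbar, (∀ f ∈ T, eval v f = 0) → ∀ f ∈ S, eval v f = 0 := by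
  have h := (isNoetherianRing_iff_ideal_fg (MvPolynomial ρ Qbar)).1 inferInstance (Ideal.span S)
  obtain ⟨T, hT1, hT2⟩ := (Submodule.fg_span_iff_fg_span_finset_subset S).1 h
  refine ⟨T, hT1, fun v hv f hf => ?_⟩
  have h1 : f ∈ Ideal.span (T : Set (MvPolynomial ρ Qbar)) := by
    have : f ∈ Submodule.span (MvPolynomial ρ Qbar) S := Submodule.subset_span hf
    rw [hT2] at this
    exact this
  have h2 : Ideal.span (T : Set (MvPolynomial ρ Qbar)) ≤ RingHom.ker (eval v) := by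
    apply Ideal.span_le.2
    intro g hg
    exact hv g hg
  exact h2 h1

/-- finitely many charts -/
theorem charts {N M : ℕ} {X : Set (PP N)} {π : X → PP M} (hπ : IsRegular π) :
    ∃ (κ : Type) (_ : Fintype κ) (g : κ → MvPolynomial (Fin (N + 1)) Qbar) (e : κ → ℕ)
      (F : κ → Fin (M + 1) → MvPolynomial (Fin (N + 1)) Qbar),
      (∀ c, ∃ k : ℕ, (g c).IsHomogeneous k) ∧ (∀ c i, (F c i).IsHomogeneous (e c)) ∧
      (∀ z : X, ∃ c, eval z.1.rep (g c) ≠ 0) ∧
      ∀ c, ∀ z : X, eval z.1.rep (g c) ≠ 0 →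
        ∃ h : (fun i => eval z.1.rep (F c i)) ≠ 0, π z = Projectivization.mk Qbar _ h := by
  classical
  choose g e F hg hF hgx hz using hπ
  obtain ⟨T, hT1, hT2⟩ := fin_span (Set.range g)
  have hT3 : ∀ t : T, ∃ x : X, g x = t.1 := fun t => hT1 t.2
  choose x hx using hT3
  refine ⟨T, inferInstance, fun t => g (x t), fun t => e (x t), fun t => F (x t),
    fun t => hg (x t), fun t => hF (x t), fun z => ?_, fun t z h => hz (x t) z h⟩
  by_contra hcon
  push Not at hcon
  apply hgx z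
  apply hT2 z.1.rep _ _ ⟨z, rfl⟩
  intro f hf
  have := hcon ⟨f, hf⟩
  rwa [hx] at this

/-- Part I -/
theorem height_le_of_regular {N M : ℕ} {X : Set (PP N)} {π : X → PP M} (hπ : IsRegular π) :
    ∃ C : ℝ, 0 < C ∧ ∀ x : X, height (π x) ≤ C * height x.1 + C := by
  classical
  obtain ⟨κ, hκ, g, e, F, hg, hF, hcov, hch⟩ := charts hπ
  choose C hC using fun c => absLogHeight_eval (e c) (F c) (hF c)
  refine ⟨1 + ∑ c, (|C c| + e c), by positivity, fun x => ?_⟩
  obtain ⟨c, hc⟩ := hcov x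
  obtain ⟨hne, hx⟩ := hch c x hc
  rw [hx, height_mk]
  have h1 := hC c x.1.rep
  have h2 : |C c| + (e c : ℝ) ≤ ∑ c, (|C c| + (e c : ℝ)) :=
    Finset.single_le_sum (f := fun c => |C c| + (e c : ℝ)) (fun c _ => by positivity)
      (Finset.mem_univ c)
  have h3 := height_nonneg x.1
  have h4 := le_abs_self (C c)
  have h5 : (0 : ℝ) ≤ e c := by positivity
  have h6 : 0 ≤ |C c| := abs_nonneg _
  have h7 : absLogHeight x.1.rep = height x.1 := rfl
  rw [h7] at h1
  nlinarith

/-- a nonzero vector can be normalised -/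
theorem normalise {N : ℕ} (P : PP N) : ∃ (k : Fin (N + 1)) (c : Qbar), c ≠ 0 ∧
    (c • P.rep) k = 1 := by
  have h := P.rep_nonzero
  obtain ⟨k, hk⟩ := Function.ne_iff.1 h
  refine ⟨k, (P.rep k)⁻¹, inv_ne_zero hk, ?_⟩
  simp only [Pi.smul_apply, smul_eq_mul]
  exact inv_mul_cancel₀ hk

/-- the system of equations attached to a chart -/
noncomputable def sys {N M : ℕ} (S₀ : Finset (MvPolynomial (Fin (N + 1)) Qbar))
    (t g : MvPolynomial (Fin (N + 1)) Qbar) (F : Fin (M + 1) → MvPolynomial (Fin (N + 1)) Qbar)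
    (k : Fin (N + 1)) :
    (S₀ ⊕ Unit) ⊕ (Fin (M + 1) × Fin (M + 1)) ⊕ Unit →
      MvPolynomial ((Fin (N + 1) ⊕ Unit) ⊕ Fin (M + 1)) Qbar
  | .inl (.inl s) => rename (fun a => Sum.inl (Sum.inl a)) s.1
  | .inl (.inr _) => X (Sum.inl (Sum.inr ())) * rename (fun a => Sum.inl (Sum.inl a)) (t * g) - 1
  | .inr (.inl ab) => rename (fun a => Sum.inl (Sum.inl a)) (F ab.1) * X (Sum.inr ab.2) -
      rename (fun a => Sum.inl (Sum.inl a)) (F ab.2) * X (Sum.inr ab.1)
  | .inr (.inr _) => X (Sum.inl (Sum.inl k)) - 1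

theorem eval_ren {N M : ℕ} (x : Fin (N + 1) ⊕ Unit → Qbar) (y : Fin (M + 1) → Qbar)
    (f : MvPolynomial (Fin (N + 1)) Qbar) :
    eval (Sum.elim x y) (rename (fun a => Sum.inl (Sum.inl a)) f) = eval (fun a => x (Sum.inl a)) f := by
  rw [eval_rename]
  rfl

/-- Part II -/
theorem exists_small_in_fibre {N M : ℕ} {X : Set (PP N)} (hX : IsQuasiProj X) {π : X → PP M}
    (hπ : IsRegular π) :
    ∃ C : ℝ, 0 < C ∧ ∀ x : X, ∃ x' : X, π x' = π x ∧ height x'.1 ≤ C * height (π x) + C := by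
  classical
  obtain ⟨Z, W, ⟨S, hS, rfl⟩, ⟨T, hT, rfl⟩, hXe⟩ := hX
  obtain ⟨κ, hκ, g, e, F, hg, hF, hcov, hch⟩ := charts hπ
  obtain ⟨S₀, hS₀, hS₀'⟩ := fin_span S
  obtain ⟨T₀, hT₀, hT₀'⟩ := fin_span T
  -- constants for all systems
  choose C hC0 hC using fun q : κ × T₀ × Fin (N + 1) =>
    bounded_solution (sys (M := M) S₀ q.2.1.1 (g q.1) (F q.1) q.2.2)
  set D : ℝ := ∑ q, C q with hD
  have hD0 : 0 ≤ D := Finset.sum_nonneg fun q _ => hC0 q
  refine ⟨1 + (N + 1) * D * (M + 1), by positivity, fun x => ?_⟩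
  set y := π x with hy
  -- choose the chart, etc
  obtain ⟨c, hc⟩ := hcov x
  have hXmem : ∀ P : PP N, P ∈ X ↔ (∀ f ∈ S, eval P.rep f = 0) ∧ ¬ ∀ f ∈ T, eval P.rep f = 0 := by
    intro P
    rw [hXe]
    rfl
  obtain ⟨hxZ, hxW⟩ := (hXmem x.1).1 x.2
  have hxT : ∃ t ∈ T₀, eval x.1.rep t ≠ 0 := by
    by_contra hcon
    push Not at hcon
    exact hxW (hT₀' _ hcon)
  obtain ⟨t, ht, htx⟩ := hxT
  obtain ⟨k, a, ha0, ha⟩ := normalise x.1
  obtain ⟨j, b, hb0, hb⟩ := normalise y
  set y' : Fin (M + 1) → Qbar := b • y.rep with hy'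
  set x1 : Fin (N + 1) → Qbar := a • x.1.rep with hx1
  obtain ⟨kt, hkt⟩ := hT t (hT₀ ht)
  obtain ⟨kg, hkg⟩ := hg c
  have ht1 : eval x1 t ≠ 0 := by
    rw [hx1, eval_smul hkt]
    exact mul_ne_zero (pow_ne_zero _ ha0) htx
  have hg1 : eval x1 (g c) ≠ 0 := by
    rw [hx1, eval_smul hkg]
    exact mul_ne_zero (pow_ne_zero _ ha0) hc
  obtain ⟨hFne, hFx⟩ := hch c x hc
  -- y' is proportional to F x1
  have hprop : ∃ l : Qbar, ∀ i, y' i = l * eval x1 (F c i) := by
    obtain ⟨u, hu⟩ := Projectivization.exists_smul_eq_mk_rep Qbar _ hFne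
    rw [← hFx, ← hy] at hu
    refine ⟨b * u * (a ^ (e c))⁻¹, fun i => ?_⟩
    have h1 := congrFun hu i
    simp only [Pi.smul_apply, Units.smul_def, smul_eq_mul] at h1
    rw [hy', Pi.smul_apply, smul_eq_mul, ← h1, hx1, eval_smul (hF c i)]
    have : a ^ (e c) ≠ 0 := pow_ne_zero _ ha0
    field_simp
  obtain ⟨l, hl⟩ := hprop
  have hsolv : ∃ v : Fin (N + 1) ⊕ Unit → Qbar,
      ∀ i, eval (Sum.elim v y') (sys (M := M) S₀ t (g c) (F c) k i) = 0 := by
    refine ⟨Sum.elim x1 (fun _ => (eval x1 t * eval x1 (g c))⁻¹), ?_⟩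
    rintro ((s | _) | (ab | _))
    · simp only [sys]
      rw [eval_ren]
      simp only [Sum.elim_inl]
      obtain ⟨ks, hks⟩ := hS s.1 (hS₀ s.2)
      have : eval (fun a => x1 a) s.1 = eval x1 s.1 := rfl
      rw [this, hx1, eval_smul hks, hxZ s.1 (hS₀ s.2), mul_zero]
    · simp only [sys, map_sub, map_mul, map_one, eval_X]
      rw [eval_ren, eval_ren]
      simp only [Sum.elim_inl, Sum.elim_inr]
      rw [inv_mul_cancel₀ (mul_ne_zero ht1 hg1), sub_self]
    · simp only [sys, map_sub, map_mul, eval_X]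
      rw [eval_ren, eval_ren]
      simp only [Sum.elim_inl, Sum.elim_inr]
      rw [hl, hl]
      ring
    · simp only [sys, map_sub, map_one, eval_X]
      simp only [Sum.elim_inl]
      rw [ha, sub_self]
  obtain ⟨v, hv, hvh⟩ := hC (c, ⟨t, ht⟩, k) y' hsolv
  simp only at hv
  set x2 : Fin (N + 1) → Qbar := fun a => v (Sum.inl a) with hx2
  have e1 : ∀ s ∈ S, eval x2 s = 0 := by
    apply hS₀'
    intro s hs
    have := hv (.inl (.inl ⟨s, hs⟩))
    simp only [sys] at this
    rwa [eval_ren] at this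
  have e2 : v (Sum.inr ()) * (eval x2 t * eval x2 (g c)) = 1 := by
    have := hv (.inl (.inr ()))
    simp only [sys, map_sub, map_mul, map_one, eval_X] at this
    rw [eval_ren, eval_ren] at this
    simp only [Sum.elim_inl] at this
    exact sub_eq_zero.1 this
  have e3 : ∀ i i', eval x2 (F c i) * y' i' = eval x2 (F c i') * y' i := by
    intro i i'
    have := hv (.inr (.inl (i, i')))
    simp only [sys, map_sub, map_mul, eval_X] at this
    rw [eval_ren, eval_ren] at this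
    simp only [Sum.elim_inr] at this
    exact sub_eq_zero.1 this
  have e4 : x2 k = 1 := by
    have := hv (.inr (.inr ()))
    simp only [sys, map_sub, map_one, eval_X, Sum.elim_inl] at this
    exact sub_eq_zero.1 this
  have hx2ne : x2 ≠ 0 := by
    intro h
    rw [h] at e4
    simp at e4
  have ht2 : eval x2 t ≠ 0 := by
    intro h
    rw [h] at e2
    simp at e2
  have hg2 : eval x2 (g c) ≠ 0 := by
    intro h
    rw [h] at e2
    simp at e2
  set P2 : PP N := Projectivization.mk Qbar x2 hx2ne with hP2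
  obtain ⟨w, hw⟩ := Projectivization.exists_smul_eq_mk_rep Qbar x2 hx2ne
  rw [← hP2, Units.smul_def] at hw
  have hw0 : (w : Qbar) ≠ 0 := w.ne_zero
  have hP2X : P2 ∈ X := by
    rw [hXmem]
    constructor
    · intro s hs
      obtain ⟨ks, hks⟩ := hS s hs
      rw [← hw, eval_smul hks, e1 s hs, mul_zero]
    · intro hcon
      have := hcon t (hT₀ ht)
      rw [← hw, eval_smul hkt] at this
      exact mul_ne_zero (pow_ne_zero _ hw0) ht2 this
  have hg3 : eval P2.rep (g c) ≠ 0 := by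
    rw [← hw, eval_smul hkg]
    exact mul_ne_zero (pow_ne_zero _ hw0) hg2
  obtain ⟨hF2ne, hF2⟩ := hch c ⟨P2, hP2X⟩ hg3
  refine ⟨⟨P2, hP2X⟩, ?_, ?_⟩
  · rw [hF2]
    have hyy : y = Projectivization.mk Qbar y' (by
        intro h
        rw [h] at hb
        simp at hb) := by
      conv_lhs => rw [← y.mk_rep]
      rw [Projectivization.mk_eq_mk_iff']
      refine ⟨b⁻¹, ?_⟩
      rw [hy', smul_smul, inv_mul_cancel₀ hb0, one_smul]
    rw [hyy, Projectivization.mk_eq_mk_iff']
    -- F(P2.rep) = c * y'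
    refine ⟨eval P2.rep (F c j), ?_⟩
    funext i
    simp only [Pi.smul_apply, smul_eq_mul]
    rw [← hw, eval_smul (hF c j), eval_smul (hF c i)]
    have h1 := e3 i j
    rw [hb, mul_one] at h1
    rw [h1]
    ring
  · have hht : height P2 = absLogHeight x2 := height_mk x2 hx2ne
    show height P2 ≤ _
    rw [hht]
    have h1 := absLogHeight_le_sum x2
    have h2 : ∑ i, absLogHeight ![1, x2 i] ≤ ∑ i : Fin (N + 1), C (c, ⟨t, ht⟩, k) *
        (1 + ∑ b, HtSol.h1 (y' b)) := by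
      apply Finset.sum_le_sum
      intro i _
      exact hvh (Sum.inl i)
    have h3 : ∑ i, HtSol.h1 (y' i) ≤ (M + 1) * height y := by
      have : ∀ i ∈ Finset.univ, HtSol.h1 (y' i) ≤ height y := by
        intro i _
        have := aff_le_of_eq_one y' j hb i
        have h5 : absLogHeight y' = height y := by
          rw [hy', absLogHeight_smul _ hb0]; rfl
        rw [h5] at this
        exact this
      refine (Finset.sum_le_sum this).trans ?_
      simp
    have hCD : C (c, ⟨t, ht⟩, k) ≤ D :=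
      Finset.single_le_sum (f := C) (fun q _ => hC0 q) (Finset.mem_univ _)
    rw [Finset.sum_const, Finset.card_univ, Fintype.card_fin, nsmul_eq_mul] at h2
    have h6 := height_nonneg y
    have h7 : C (c, ⟨t, ht⟩, k) * (1 + ∑ b, HtSol.h1 (y' b)) ≤ D * (1 + (M + 1) * height y) := by
      apply mul_le_mul hCD _ _ hD0
      · linarith
      · have : 0 ≤ ∑ b, HtSol.h1 (y' b) := Finset.sum_nonneg fun b _ => h1_nonneg _
        linarith
    have h8 : ((N + 1 : ℕ) : ℝ) * (C (c, ⟨t, ht⟩, k) * (1 + ∑ b, HtSol.h1 (y' b))) ≤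
        (N + 1) * (D * (1 + (M + 1) * height y)) := by
      push_cast
      apply mul_le_mul_of_nonneg_left h7
      positivity
    have h9 : (N + 1 : ℝ) * (D * (1 + (M + 1) * height y)) ≤
        (1 + (N + 1) * D * (M + 1)) * height y + (1 + (N + 1) * D * (M + 1)) := by
      have hM : (0 : ℝ) ≤ M := Nat.cast_nonneg M
      have hN : (0 : ℝ) ≤ N := Nat.cast_nonneg N
      have : 0 ≤ (N + 1 : ℝ) * D * M := by positivity
      nlinarith
    linarith

end Pool.Agent.H813R3.HtGeo
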