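import Mathlib
import Pool.Agent.H813R3.HtGeo

set_option autoImplicit false

namespace Pool.Agent.H813R3.HtGeo

open Pool.Agent.Helper259 Pool.Agent.Helper259.AbsHt MvPolynomial Pool.Agent.H813R3.HtSol

/-- Embedding of a locally closed set into a projective space: an isomorphism of `X` onto
a locally closed subset of the projective space. -/
def IsEmbedding {N N' : ℕ} {X : Set (PP N)} (ι : X → PP N') : Prop :=
  IsRegular ι ∧ IsQuasiProj (Set.range ι) ∧
    ∃ j : Set.range ι → PP N, IsRegular j ∧ ∀ x : X, j ⟨ι x, Set.mem_range_self x⟩ = x.1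

/-- Ample heights on a quasi-projective variety: up to a positive multiple and a bounded function,
the pullback of the standard absolute logarithmic height under a projective embedding. -/
def IsAmpleHeight {N : ℕ} (X : Set (PP N)) (h : X → ℝ) : Prop :=
  ∃ (N' : ℕ) (ι : X → PP N'), IsEmbedding ι ∧ ∃ a : ℝ, 0 < a ∧ ∃ B : ℝ,
    ∀ x : X, |h x - a * height (ι x)| ≤ B

/-- `A ≍ B` on `S` -/
def Comparable {S : Type*} (A B : S → ℝ) : Prop :=
  ∃ c₁ c₂ c₃ c₄ : ℝ, 0 < c₁ ∧ 0 < c₂ ∧ ∀ s : S, c₁ * A s - c₃ ≤ B s ∧ B s ≤ c₂ * A s + c₄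

theorem ample_le {N : ℕ} {X : Set (PP N)} {h : X → ℝ} (hh : IsAmpleHeight X h) :
    ∃ C D : ℝ, 0 < C ∧ ∀ x : X, h x ≤ C * height x.1 + D := by
  obtain ⟨N', ι, ⟨hι, _, _⟩, a, ha, B, hB⟩ := hh
  obtain ⟨C, hC0, hC⟩ := height_le_of_regular hι
  refine ⟨a * C, a * C + B, by positivity, fun x => ?_⟩
  have h1 := (abs_le.1 (hB x)).2
  have h2 := hC x
  nlinarith

theorem le_ample {N : ℕ} {X : Set (PP N)} {h : X → ℝ} (hh : IsAmpleHeight X h) :
    ∃ C D : ℝ, 0 < C ∧ ∀ x : X, height x.1 ≤ C * h x + D := by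
  obtain ⟨N', ι, ⟨_, _, j, hj, hji⟩, a, ha, B, hB⟩ := hh
  obtain ⟨C, hC0, hC⟩ := height_le_of_regular hj
  refine ⟨C / a, C / a * B + C, by positivity, fun x => ?_⟩
  have h1 := (abs_le.1 (hB x)).1
  have h2 := hC ⟨ι x, Set.mem_range_self x⟩
  rw [hji x] at h2
  simp only at h2
  have h6 : height (ι x) ≤ (h x + B) / a := by
    rw [le_div_iff₀ ha]
    linarith
  have h8 : C * height (ι x) ≤ C * ((h x + B) / a) := mul_le_mul_of_nonneg_left h6 hC0.le
  have h9 : C * ((h x + B) / a) = C / a * h x + C / a * B := by field_simp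
  linarith

theorem ample_bdd {N : ℕ} {X : Set (PP N)} {h : X → ℝ} (hh : IsAmpleHeight X h) :
    ∃ B : ℝ, ∀ x : X, B ≤ h x := by
  obtain ⟨C, D, hC, h1⟩ := le_ample hh
  refine ⟨- D / C, fun x => ?_⟩
  have h2 := h1 x
  have h3 := height_nonneg x.1
  rw [div_le_iff₀ hC]
  linarith

/-- the general comparison, for the infimum over the fibres of a regular map -/
theorem fibre_comparison {N M : ℕ} {X : Set (PP N)} {Y : Set (PP M)} (hX : IsQuasiProj X)
    (π : X → Y) (hπ : IsRegular (fun x => (π x : PP M))) {hX' : X → ℝ} {hY' : Y → ℝ}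
    (aX : IsAmpleHeight X hX') (aY : IsAmpleHeight Y hY') :
    (∃ c d : ℝ, 0 < c ∧ ∀ x : X, hY' (π x) ≤ c * hX' x + d) ∧
    ∃ c d : ℝ, 0 < c ∧ ∀ x : X, ∃ x' : X, π x' = π x ∧ hX' x' ≤ c * hY' (π x) + d := by
  obtain ⟨C₁, D₁, hC₁, h₁⟩ := ample_le aX
  obtain ⟨C₂, D₂, hC₂, h₂⟩ := le_ample aX
  obtain ⟨C₃, D₃, hC₃, h₃⟩ := ample_le aY
  obtain ⟨C₄, D₄, hC₄, h₄⟩ := le_ample aY
  obtain ⟨C₅, hC₅, h₅⟩ := height_le_of_regular hπ
  obtain ⟨C₆, hC₆, h₆⟩ := exists_small_in_fibre hX hπ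
  constructor
  · refine ⟨C₃ * C₅ * C₂, C₃ * C₅ * D₂ + C₃ * C₅ + D₃, by positivity, fun x => ?_⟩
    have a1 := h₃ (π x)
    have a2 : C₃ * height (π x).1 ≤ C₃ * (C₅ * height x.1 + C₅) :=
      mul_le_mul_of_nonneg_left (h₅ x) hC₃.le
    have a3 : C₃ * C₅ * height x.1 ≤ C₃ * C₅ * (C₂ * hX' x + D₂) :=
      mul_le_mul_of_nonneg_left (h₂ x) (by positivity)
    linarith
  · refine ⟨C₁ * C₆ * C₄, C₁ * C₆ * D₄ + C₁ * C₆ + D₁, by positivity, fun x => ?_⟩
    obtain ⟨x', hx', hle⟩ := h₆ x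
    refine ⟨x', Subtype.ext hx', ?_⟩
    have a1 := h₁ x'
    have a2 : C₁ * height x'.1 ≤ C₁ * (C₆ * height (π x).1 + C₆) :=
      mul_le_mul_of_nonneg_left hle hC₁.le
    have a3 : C₁ * C₆ * height (π x).1 ≤ C₁ * C₆ * (C₄ * hY' (π x) + D₄) :=
      mul_le_mul_of_nonneg_left (h₄ (π x)) (by positivity)
    linarith

/-- Comparison of the height on the quotient with the infimum of the heights in an orbit, where
the orbit of `x` is parametrised by `o x : G → X` -/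
theorem orbit_comparison {N M : ℕ} {X : Set (PP N)} {Y : Set (PP M)} (hX : IsQuasiProj X)
    (π : X → Y) (hπ : IsRegular (fun x => (π x : PP M))) {hX' : X → ℝ} {hY' : Y → ℝ}
    (aX : IsAmpleHeight X hX') (aY : IsAmpleHeight Y hY') {G : Type*} [Nonempty G]
    (o : X → G → X) (ho : ∀ x x' : X, π x = π x' ↔ ∃ g : G, o x g = x') :
    Comparable (fun x : X => hY' (π x)) (fun x : X => ⨅ g : G, hX' (o x g)) := by
  obtain ⟨⟨c, d, hc, h1⟩, ⟨c', d', hc', h2⟩⟩ := fibre_comparison hX π hπ aX aY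
  obtain ⟨B, hB⟩ := ample_bdd aX
  refine ⟨c⁻¹, c', c⁻¹ * d, d', by positivity, hc', fun x => ⟨?_, ?_⟩⟩
  · apply le_ciInf
    intro g
    have hg : π x = π (o x g) := (ho x (o x g)).2 ⟨g, rfl⟩
    have := h1 (o x g)
    rw [← hg] at this
    have h3 : c⁻¹ * hY' (π x) ≤ c⁻¹ * (c * hX' (o x g) + d) :=
      mul_le_mul_of_nonneg_left this (by positivity)
    have h4 : c⁻¹ * (c * hX' (o x g) + d) = hX' (o x g) + c⁻¹ * d := by field_simp
    linarith
  · obtain ⟨x', hx', hle⟩ := h2 x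
    obtain ⟨g, hg⟩ := (ho x x').1 hx'.symm
    have hbdd : BddBelow (Set.range fun g : G => hX' (o x g)) := ⟨B, by rintro _ ⟨g, rfl⟩; exact hB _⟩
    refine (ciInf_le hbdd g).trans ?_
    rw [hg]
    exact hle

/-- the inclusion of a locally closed set is an embedding -/
theorem isEmbedding_val {N : ℕ} {X : Set (PP N)} (hX : IsQuasiProj X) :
    IsEmbedding (fun x : X => (x : PP N)) := by
  have hreg : ∀ {X' : Set (PP N)}, IsRegular (fun x : X' => (x : PP N)) := by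
    intro X' x
    refine ⟨1, 1, fun i => MvPolynomial.X i, ⟨0, isHomogeneous_one _ _⟩, fun i => isHomogeneous_X _ _,
      by simp, fun z _ => ?_⟩
    have h : (fun i => eval z.1.rep (MvPolynomial.X i : MvPolynomial (Fin (N + 1)) Qbar)) = z.1.rep := by
      funext i; simp
    refine ⟨by rw [h]; exact z.1.rep_nonzero, ?_⟩
    show z.1 = _
    conv_lhs => rw [← z.1.mk_rep]
    congr 1
    exact h.symm
  refine ⟨hreg, ?_, fun x => x.1, hreg, fun x => rfl⟩
  have : Set.range (fun x : X => (x : PP N)) = X := Subtype.range_coe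
  rw [this]
  exact hX

theorem isAmpleHeight_height {N : ℕ} {X : Set (PP N)} (hX : IsQuasiProj X) :
    IsAmpleHeight X (fun x => height x.1) :=
  ⟨N, fun x => x.1, isEmbedding_val hX, 1, one_pos, 0, fun x => by simp⟩

end Pool.Agent.H813R3.HtGeo
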