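import Mathlib
import Pool.Agent.H813R3.HtQ

set_option autoImplicit false

namespace Pool.Agent.H813R3.HtGeo

open Pool.Agent.Helper259 Pool.Agent.Helper259.AbsHt MvPolynomial

/-- The binary form `∑ c_i X^i Y^(d-i)`. -/
noncomputable def form {R : Type*} [CommRing R] {d : ℕ} (c : Fin (d + 1) → R) :
    MvPolynomial (Fin 2) R :=
  ∑ i : Fin (d + 1), monomial (Finsupp.single 0 (i : ℕ) + Finsupp.single 1 (d - (i : ℕ))) (c i)

/-- the first `d + 1` coordinates `a_0, ..., a_d` -/
def aPart {R : Type*} {d : ℕ} (v : Fin (2 * d + 1 + 1) → R) : Fin (d + 1) → R :=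
  fun i => v ⟨i, by have := i.2; omega⟩

/-- the last `d + 1` coordinates `b_0, ..., b_d` -/
def bPart {R : Type*} {d : ℕ} (v : Fin (2 * d + 1 + 1) → R) : Fin (d + 1) → R :=
  fun i => v ⟨d + 1 + i, by have := i.2; omega⟩

/-- The space of rational maps of degree `d` on the projective line: pairs of binary forms of
degree `d` without common zero, up to scaling, as a subset of the projective space of
dimension `2 d + 1`. -/
def Rat (d : ℕ) : Set (PP (2 * d + 1)) :=
  {P | ∀ z : Fin 2 → Qbar, eval z (form (aPart P.rep)) = 0 → eval z (form (bPart P.rep)) = 0 → z = 0}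

/-- the substitution `F(φ(X, Y))` -/
noncomputable def subst (φ : Matrix (Fin 2) (Fin 2) Qbar) (F : MvPolynomial (Fin 2) Qbar) :
    MvPolynomial (Fin 2) Qbar :=
  bind₁ (fun i => C (φ i 0) * X 0 + C (φ i 1) * X 1) F

/-- The two forms of `φ⁻¹ ∘ f ∘ φ`, where `f = (A : B)` has coefficient vector `v`. -/
noncomputable def conjForm {d : ℕ} (φ : GL (Fin 2) Qbar) (v : Fin (2 * d + 1 + 1) → Qbar)
    (i : Fin 2) : MvPolynomial (Fin 2) Qbar :=
  C ((φ⁻¹ : GL (Fin 2) Qbar).1 i 0) * subst φ.1 (form (aPart v)) +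
    C ((φ⁻¹ : GL (Fin 2) Qbar).1 i 1) * subst φ.1 (form (bPart v))

/-- coefficients of a binary form of degree `d` -/
noncomputable def coefVec (d : ℕ) (F : MvPolynomial (Fin 2) Qbar) : Fin (d + 1) → Qbar :=
  fun i => coeff (Finsupp.single 0 (i : ℕ) + Finsupp.single 1 (d - (i : ℕ))) F

/-- coefficient vector of `φ⁻¹ ∘ f ∘ φ` -/
noncomputable def conjVec {d : ℕ} (φ : GL (Fin 2) Qbar) (v : Fin (2 * d + 1 + 1) → Qbar) :
    Fin (2 * d + 1 + 1) → Qbar :=
  fun k => if h : (k : ℕ) < d + 1 then coefVec d (conjForm φ v 0) ⟨k, h⟩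
    else coefVec d (conjForm φ v 1) ⟨(k : ℕ) - (d + 1), by have := k.2; omega⟩

/-! ### Basic facts on forms -/

theorem form_isHomogeneous {R : Type*} [CommRing R] {d : ℕ} (c : Fin (d + 1) → R) :
    (form c).IsHomogeneous d := by
  apply IsHomogeneous.sum
  intro i _
  apply isHomogeneous_monomial
  have := i.2
  rw [map_add, Finsupp.degree_single, Finsupp.degree_single]
  omega

theorem coeff_form {R : Type*} [CommRing R] {d : ℕ} (c : Fin (d + 1) → R) (m : Fin 2 →₀ ℕ) :
    coeff m (form c) = if h : m 0 + m 1 = d then c ⟨m 0, by omega⟩ else 0 := by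
  classical
  unfold form
  rw [coeff_sum]
  have key : ∀ i : Fin (d + 1), (Finsupp.single 0 (i : ℕ) + Finsupp.single 1 (d - (i : ℕ)) = m) ↔
      (m 0 + m 1 = d ∧ (i : ℕ) = m 0) := by
    intro i
    have hi := i.2
    constructor
    · rintro rfl
      simp
      omega
    · rintro ⟨h1, h2⟩
      ext j
      fin_cases j
      · simp [h2]
      · simp
        omega
  simp only [coeff_monomial, key]
  split_ifs with h
  · rw [Finset.sum_eq_single ⟨m 0, by omega⟩]
    · simp [h]
    · intro b _ hb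
      rw [if_neg]
      rintro ⟨_, h2⟩
      exact hb (Fin.ext h2)
    · simp
  · apply Finset.sum_eq_zero
    intro i _
    rw [if_neg]
    exact fun h' => h h'.1

theorem form_coefVec {d : ℕ} {F : MvPolynomial (Fin 2) Qbar} (hF : F.IsHomogeneous d) :
    form (coefVec d F) = F := by
  ext m
  rw [coeff_form]
  split_ifs with h
  · unfold coefVec
    congr 1
    ext j
    fin_cases j
    · simp
    · simp
      omega
  · symm
    by_contra hne
    apply h
    have := hF hne
    rw [Finsupp.weight_apply, Finsupp.sum_fintype _ _ (by simp)] at this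
    simpa [Fin.sum_univ_two] using this

theorem eval_form {R : Type*} [CommRing R] {d : ℕ} (c : Fin (d + 1) → R) (z : Fin 2 → R) :
    eval z (form c) = ∑ i : Fin (d + 1), c i * (z 0 ^ (i : ℕ) * z 1 ^ (d - (i : ℕ))) := by
  unfold form
  rw [map_sum]
  refine Finset.sum_congr rfl fun i _ => ?_
  rw [eval_monomial]
  congr 1
  rw [Finsupp.prod_fintype _ _ (by simp)]
  simp [Fin.prod_univ_two]

theorem form_smul {d : ℕ} (w : Qbar) (c : Fin (d + 1) → Qbar) : form (w • c) = C w * form c := by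
  unfold form
  rw [Finset.mul_sum]
  refine Finset.sum_congr rfl fun i _ => ?_
  rw [C_mul_monomial]
  rfl

theorem aPart_smul {d : ℕ} (w : Qbar) (v : Fin (2 * d + 1 + 1) → Qbar) :
    aPart (w • v) = w • aPart v := rfl

theorem bPart_smul {d : ℕ} (w : Qbar) (v : Fin (2 * d + 1 + 1) → Qbar) :
    bPart (w • v) = w • bPart v := rfl

/-- no common zero -/
def NoZero {d : ℕ} (v : Fin (2 * d + 1 + 1) → Qbar) : Prop :=
  ∀ z : Fin 2 → Qbar, eval z (form (aPart v)) = 0 → eval z (form (bPart v)) = 0 → z = 0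

theorem noZero_smul {d : ℕ} {w : Qbar} (hw : w ≠ 0) {v : Fin (2 * d + 1 + 1) → Qbar} :
    NoZero (w • v) ↔ NoZero v := by
  unfold NoZero
  simp only [aPart_smul, bPart_smul, form_smul, map_mul, eval_C, mul_eq_zero, hw, false_or]

theorem mk_mem_Rat {d : ℕ} (v : Fin (2 * d + 1 + 1) → Qbar) (hv : v ≠ 0) :
    Projectivization.mk Qbar v hv ∈ Rat d ↔ NoZero v := by
  obtain ⟨a, ha⟩ := Projectivization.exists_smul_eq_mk_rep Qbar v hv
  rw [Units.smul_def] at ha
  show NoZero _ ↔ _
  rw [← ha, noZero_smul a.ne_zero]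

/-! ### The conjugation action -/

theorem eval_subst (φ : Matrix (Fin 2) (Fin 2) Qbar) (F : MvPolynomial (Fin 2) Qbar)
    (z : Fin 2 → Qbar) : eval z (subst φ F) = eval (φ.mulVec z) F := by
  unfold subst
  have h : eval z (bind₁ (fun i => C (φ i 0) * X 0 + C (φ i 1) * X 1) F) =
      eval (fun i => eval z (C (φ i 0) * X 0 + C (φ i 1) * X 1 : MvPolynomial (Fin 2) Qbar)) F :=
    eval₂Hom_bind₁ _ _ _ _
  rw [h]
  congr 2
  funext i
  simp [Matrix.mulVec, dotProduct, Fin.sum_univ_two]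

theorem subst_isHomogeneous (φ : Matrix (Fin 2) (Fin 2) Qbar) {F : MvPolynomial (Fin 2) Qbar}
    {d : ℕ} (hF : F.IsHomogeneous d) : (subst φ F).IsHomogeneous d := by
  unfold subst
  have h1 : ∀ i : Fin 2, (C (φ i 0) * X 0 + C (φ i 1) * X 1 : MvPolynomial (Fin 2) Qbar).IsHomogeneous 1 := by
    intro i
    apply IsHomogeneous.add
    · simpa using (isHomogeneous_C (Fin 2) (φ i 0)).mul (isHomogeneous_X Qbar (0 : Fin 2))
    · simpa using (isHomogeneous_C (Fin 2) (φ i 1)).mul (isHomogeneous_X Qbar (1 : Fin 2))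
  have := hF.aeval (fun i => (C (φ i 0) * X 0 + C (φ i 1) * X 1 : MvPolynomial (Fin 2) Qbar)) h1
  rw [one_mul] at this
  exact this

theorem conjForm_isHomogeneous {d : ℕ} (φ : GL (Fin 2) Qbar) (v : Fin (2 * d + 1 + 1) → Qbar)
    (i : Fin 2) : (conjForm φ v i).IsHomogeneous d := by
  unfold conjForm
  apply IsHomogeneous.add
  · simpa using (isHomogeneous_C (Fin 2) _).mul (subst_isHomogeneous φ.1 (form_isHomogeneous (aPart v)))
  · simpa using (isHomogeneous_C (Fin 2) _).mul (subst_isHomogeneous φ.1 (form_isHomogeneous (bPart v)))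

theorem aPart_conjVec {d : ℕ} (φ : GL (Fin 2) Qbar) (v : Fin (2 * d + 1 + 1) → Qbar) :
    form (aPart (conjVec φ v)) = conjForm φ v 0 := by
  rw [← form_coefVec (conjForm_isHomogeneous φ v 0)]
  congr 1
  funext i
  unfold aPart conjVec
  simp only
  rw [dif_pos i.2]

theorem bPart_conjVec {d : ℕ} (φ : GL (Fin 2) Qbar) (v : Fin (2 * d + 1 + 1) → Qbar) :
    form (bPart (conjVec φ v)) = conjForm φ v 1 := by
  rw [← form_coefVec (conjForm_isHomogeneous φ v 1)]
  congr 1
  funext i
  unfold bPart conjVec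
  simp only
  rw [dif_neg (by omega)]
  congr 1
  apply Fin.ext
  simp

theorem noZero_conj {d : ℕ} (φ : GL (Fin 2) Qbar) {v : Fin (2 * d + 1 + 1) → Qbar}
    (hv : NoZero v) : NoZero (conjVec φ v) := by
  intro z h1 h2
  rw [aPart_conjVec] at h1
  rw [bPart_conjVec] at h2
  set a := eval (φ.1.mulVec z) (form (aPart v)) with ha
  set b := eval (φ.1.mulVec z) (form (bPart v)) with hb
  have hab : (φ⁻¹ : GL (Fin 2) Qbar).1.mulVec ![a, b] = 0 := by
    unfold conjForm at h1 h2
    simp only [map_add, map_mul, eval_C, eval_subst] at h1 h2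
    rw [← ha, ← hb] at h1 h2
    funext i
    fin_cases i
    · simp only [Matrix.mulVec, dotProduct, Fin.sum_univ_two]
      exact h1
    · simp only [Matrix.mulVec, dotProduct, Fin.sum_univ_two]
      exact h2
  have hab0 : (![a, b] : Fin 2 → Qbar) = 0 := by
    have h3 : φ.1.mulVec ((φ⁻¹ : GL (Fin 2) Qbar).1.mulVec ![a, b]) = ![a, b] := by
      rw [Matrix.mulVec_mulVec]
      have : φ.1 * (φ⁻¹ : GL (Fin 2) Qbar).1 = 1 := by
        rw [← Units.val_mul, mul_inv_cancel, Units.val_one]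
      rw [this, Matrix.one_mulVec]
    rw [hab, Matrix.mulVec_zero] at h3
    exact h3.symm
  have ha0 : a = 0 := by simpa using congrFun hab0 0
  have hb0 : b = 0 := by simpa using congrFun hab0 1
  have hz := hv (φ.1.mulVec z) ha0 hb0
  have h4 : (φ⁻¹ : GL (Fin 2) Qbar).1.mulVec (φ.1.mulVec z) = z := by
    rw [Matrix.mulVec_mulVec]
    have : (φ⁻¹ : GL (Fin 2) Qbar).1 * φ.1 = 1 := by
      rw [← Units.val_mul, inv_mul_cancel, Units.val_one]
    rw [this, Matrix.one_mulVec]
  rw [hz, Matrix.mulVec_zero] at h4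
  exact h4.symm

theorem ne_zero_of_noZero {d : ℕ} {v : Fin (2 * d + 1 + 1) → Qbar} (hv : NoZero v) : v ≠ 0 := by
  rintro rfl
  have ha : (aPart (0 : Fin (2 * d + 1 + 1) → Qbar)) = 0 := rfl
  have hb : (bPart (0 : Fin (2 * d + 1 + 1) → Qbar)) = 0 := rfl
  have h0 : form (0 : Fin (d + 1) → Qbar) = 0 := by
    unfold form
    simp
  have := hv (fun _ => 1) (by rw [ha, h0, map_zero]) (by rw [hb, h0, map_zero])
  have := congrFun this 0
  simp at this

/-- The conjugate `f^φ = φ⁻¹ ∘ f ∘ φ` of a rational map `f` by `φ` -/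
noncomputable def conj {d : ℕ} (φ : GL (Fin 2) Qbar) (f : Rat d) : Rat d :=
  ⟨Projectivization.mk Qbar (conjVec φ f.1.rep) (ne_zero_of_noZero (noZero_conj φ f.2)),
    (mk_mem_Rat _ _).2 (noZero_conj φ f.2)⟩

end Pool.Agent.H813R3.HtGeo
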