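import Mathlib
import Pool.Agent.H813R3.RatD

set_option autoImplicit false

namespace Pool.Agent.H813R3.HtGeo

open Pool.Agent.Helper259 Pool.Agent.Helper259.AbsHt MvPolynomial

/-- dehomogenised form -/
noncomputable def poly {R : Type*} [CommRing R] {d : ℕ} (c : Fin (d + 1) → R) : Polynomial R :=
  ∑ i : Fin (d + 1), Polynomial.monomial (i : ℕ) (c i)

theorem poly_coeff {R : Type*} [CommRing R] {d : ℕ} (c : Fin (d + 1) → R) (k : ℕ) :
    (poly c).coeff k = if h : k < d + 1 then c ⟨k, h⟩ else 0 := by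
  unfold poly
  rw [Polynomial.finsetSum_coeff]
  simp only [Polynomial.coeff_monomial]
  split_ifs with h
  · rw [Finset.sum_eq_single ⟨k, h⟩]
    · simp
    · intro b _ hb
      rw [if_neg]
      intro h2
      exact hb (Fin.ext h2)
    · simp
  · apply Finset.sum_eq_zero
    intro i _
    rw [if_neg]
    have := i.2
    omega

theorem poly_natDegree {R : Type*} [CommRing R] {d : ℕ} (c : Fin (d + 1) → R) :
    (poly c).natDegree ≤ d := by
  rw [Polynomial.natDegree_le_iff_coeff_eq_zero]
  intro N hN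
  rw [poly_coeff, dif_neg (by omega)]

theorem poly_map {R S : Type*} [CommRing R] [CommRing S] (φ : R →+* S) {d : ℕ}
    (c : Fin (d + 1) → R) : (poly c).map φ = poly (fun i => φ (c i)) := by
  ext k
  rw [Polynomial.coeff_map, poly_coeff, poly_coeff]
  split_ifs
  · rfl
  · exact map_zero φ

theorem poly_eval {R : Type*} [CommRing R] {d : ℕ} (c : Fin (d + 1) → R) (t : R) :
    (poly c).eval t = eval ![t, 1] (form c) := by
  rw [eval_form]
  unfold poly
  rw [Polynomial.eval_finsetSum]
  refine Finset.sum_congr rfl fun i _ => ?_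
  simp

theorem key_res {d : ℕ} (f g : Polynomial Qbar) (hf : f.natDegree = d) (hf0 : f ≠ 0)
    (hg : g.natDegree ≤ d) :
    Polynomial.resultant f g d d = 0 ↔ ∃ t, f.eval t = 0 ∧ g.eval t = 0 := by
  have h := Polynomial.resultant_eq_prod_eval f g d hg (IsAlgClosed.splits f)
  rw [hf] at h
  rw [h, mul_eq_zero, or_iff_right (pow_ne_zero _ (Polynomial.leadingCoeff_ne_zero.2 hf0)),
    Multiset.prod_eq_zero_iff, Multiset.mem_map]
  constructor
  · rintro ⟨t, ht, h2⟩
    exact ⟨t, (Polynomial.mem_roots'.1 ht).2, h2⟩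
  · rintro ⟨t, ht, h2⟩
    exact ⟨t, Polynomial.mem_roots'.2 ⟨hf0, ht⟩, h2⟩

theorem res_zero_iff {d : ℕ} (hd : 1 ≤ d) (a b : Fin (d + 1) → Qbar) :
    Polynomial.resultant (poly a) (poly b) d d = 0 ↔
      (a (Fin.last d) = 0 ∧ b (Fin.last d) = 0) ∨
        ∃ t, (poly a).eval t = 0 ∧ (poly b).eval t = 0 := by
  have hco : ∀ c : Fin (d + 1) → Qbar, (poly c).coeff d = c (Fin.last d) := by
    intro c
    rw [poly_coeff, dif_pos (by omega)]
    rfl
  have hdeg : ∀ c : Fin (d + 1) → Qbar, c (Fin.last d) ≠ 0 →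
      (poly c).natDegree = d ∧ poly c ≠ 0 := by
    intro c hc
    rw [← hco c] at hc
    exact ⟨le_antisymm (poly_natDegree c) (Polynomial.le_natDegree_of_ne_zero hc), by
      intro h; rw [h] at hc; simp at hc⟩
  have hlt : ∀ c : Fin (d + 1) → Qbar, c (Fin.last d) = 0 → (poly c).natDegree < d := by
    intro c hc
    rw [← hco c] at hc
    rcases (poly_natDegree c).lt_or_eq with h | h
    · exact h
    · have h2 : (poly c).leadingCoeff = 0 := by
        rw [← hc, ← Polynomial.coeff_natDegree, h]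
      rw [Polynomial.leadingCoeff_eq_zero] at h2
      rw [h2]
      simp
      omega
  by_cases ha : a (Fin.last d) = 0
  · by_cases hb : b (Fin.last d) = 0
    · simp only [ha, hb, and_self, true_or, iff_true]
      exact Polynomial.resultant_eq_zero_of_lt_lt _ _ _ _ (hlt a ha) (hlt b hb)
    · simp only [ha, hb, and_false, false_or]
      rw [Polynomial.resultant_comm, mul_eq_zero, or_iff_right (by
        exact pow_ne_zero _ (by norm_num)), key_res _ _ (hdeg b hb).1 (hdeg b hb).2 (poly_natDegree a)]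
      constructor
      · rintro ⟨t, h1, h2⟩; exact ⟨t, h2, h1⟩
      · rintro ⟨t, h1, h2⟩; exact ⟨t, h2, h1⟩
  · simp only [ha, false_and, false_or]
    exact key_res _ _ (hdeg a ha).1 (hdeg a ha).2 (poly_natDegree b)

theorem noZero_iff {d : ℕ} (hd : 1 ≤ d) (v : Fin (2 * d + 1 + 1) → Qbar) :
    NoZero v ↔ Polynomial.resultant (poly (aPart v)) (poly (bPart v)) d d ≠ 0 := by
  rw [Ne, res_zero_iff hd, not_or]
  have hinf : ∀ (c : Fin (d + 1) → Qbar) (s : Qbar), eval ![s, 0] (form c) = c (Fin.last d) * s ^ d := by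
    intro c s
    rw [eval_form, Finset.sum_eq_single (Fin.last d)]
    · simp
    · intro i _ hi
      have : d - (i : ℕ) ≠ 0 := by
        have h1 := i.2
        have h2 : (i : ℕ) ≠ d := fun h => hi (Fin.ext h)
        omega
      simp [this]
    · simp
  have hfin : ∀ (c : Fin (d + 1) → Qbar) (z : Fin 2 → Qbar), z 1 ≠ 0 →
      eval z (form c) = z 1 ^ d * (poly c).eval (z 0 / z 1) := by
    intro c z hz
    rw [poly_eval, ← eval_smul (form_isHomogeneous c)]
    congr 2
    funext i
    fin_cases i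
    · simp
      field_simp
    · simp
  constructor
  · intro h
    refine ⟨?_, ?_⟩
    · rintro ⟨ha, hb⟩
      have := h ![1, 0] (by rw [hinf, ha, zero_mul]) (by rw [hinf, hb, zero_mul])
      have := congrFun this 0
      simp at this
    · rintro ⟨t, ha, hb⟩
      rw [poly_eval] at ha hb
      have := h ![t, 1] ha hb
      have := congrFun this 1
      simp at this
  · rintro ⟨h1, h2⟩ z ha hb
    by_contra hz
    by_cases hz1 : z 1 = 0
    · have hz0 : z 0 ≠ 0 := by
        intro h0
        apply hz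
        funext i
        fin_cases i
        · exact h0
        · exact hz1
      have hzz : z = ![z 0, 0] := by
        funext i
        fin_cases i
        · rfl
        · exact hz1
      rw [hzz, hinf] at ha hb
      have hp : z 0 ^ d ≠ 0 := pow_ne_zero _ hz0
      exact h1 ⟨(mul_eq_zero.1 ha).resolve_right hp, (mul_eq_zero.1 hb).resolve_right hp⟩
    · rw [hfin _ _ hz1] at ha hb
      have hp : z 1 ^ d ≠ 0 := pow_ne_zero _ hz1
      exact h2 ⟨_, (mul_eq_zero.1 ha).resolve_left hp, (mul_eq_zero.1 hb).resolve_left hp⟩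

/-- the universal resultant -/
noncomputable def Res (d : ℕ) : MvPolynomial (Fin (2 * d + 1 + 1)) Qbar :=
  Polynomial.resultant (poly (aPart (X : Fin (2 * d + 1 + 1) → MvPolynomial _ Qbar)))
    (poly (bPart (X : Fin (2 * d + 1 + 1) → MvPolynomial _ Qbar))) d d

theorem eval_Res (d : ℕ) (v : Fin (2 * d + 1 + 1) → Qbar) :
    eval v (Res d) = Polynomial.resultant (poly (aPart v)) (poly (bPart v)) d d := by
  unfold Res
  rw [← Polynomial.resultant_map_map, poly_map, poly_map]
  congr 2
  · funext i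
    simp [aPart]
  · funext i
    simp [bPart]

theorem det_isHomogeneous {n : ℕ} {σ : Type} (A : Matrix (Fin n) (Fin n) (MvPolynomial σ Qbar))
    (hA : ∀ i j, (A i j).IsHomogeneous 1) : A.det.IsHomogeneous n := by
  rw [Matrix.det_apply']
  apply IsHomogeneous.sum
  intro τ _
  have h1 : (∏ i, A (τ i) i).IsHomogeneous n := by
    have := IsHomogeneous.prod (Finset.univ : Finset (Fin n)) (fun i => A (τ i) i) (fun _ => 1)
      (fun i _ => hA _ _)
    simpa using this
  have h2 : (((Equiv.Perm.sign τ : ℤˣ) : ℤ) : MvPolynomial σ Qbar).IsHomogeneous 0 := by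
    have : (((Equiv.Perm.sign τ : ℤˣ) : ℤ) : MvPolynomial σ Qbar) =
        C ((((Equiv.Perm.sign τ : ℤˣ) : ℤ) : Qbar)) := by simp
    rw [this]
    exact isHomogeneous_C _ _
  simpa using h2.mul h1

theorem Res_isHomogeneous (d : ℕ) : (Res d).IsHomogeneous (d + d) := by
  unfold Res Polynomial.resultant
  apply det_isHomogeneous
  have hgen : ∀ (s : Fin (d + 1) → Fin (2 * d + 1 + 1)) (k : ℕ),
      ((poly (fun i => (X (s i) : MvPolynomial (Fin (2 * d + 1 + 1)) Qbar))).coeff k).IsHomogeneous 1 := by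
    intro s k
    rw [poly_coeff]
    split_ifs
    · exact isHomogeneous_X _ _
    · exact isHomogeneous_zero _ _ _
  intro i j
  unfold Polynomial.sylvester
  rw [Matrix.of_apply]
  induction j using Fin.addCases with
  | left j =>
    rw [Fin.addCases_left]
    split_ifs
    · exact hgen (fun i => ⟨d + 1 + i, by have := i.2; omega⟩) _
    · exact isHomogeneous_zero _ _ _
  | right j =>
    rw [Fin.addCases_right]
    split_ifs
    · exact hgen (fun i => ⟨i, by have := i.2; omega⟩) _
    · exact isHomogeneous_zero _ _ _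

theorem rat_isQuasiProj {d : ℕ} (hd : 1 ≤ d) : IsQuasiProj (Rat d) := by
  refine ⟨Set.univ, {P | eval P.rep (Res d) = 0}, ⟨∅, by simp, by simp⟩,
    ⟨{Res d}, ?_, ?_⟩, ?_⟩
  · intro f hf
    rw [Set.mem_singleton_iff] at hf
    subst hf
    exact ⟨_, Res_isHomogeneous d⟩
  · ext P
    simp
  · ext P
    have h : P ∈ Rat d ↔ NoZero P.rep := Iff.rfl
    rw [h, noZero_iff hd, ← eval_Res]
    simp

end Pool.Agent.H813R3.HtGeo
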