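import Mathlib

set_option autoImplicit false
open Filter Topology

namespace Pool.Agent.H813R3.Tot

/-- sum of `1/p` over the primes `p > y` dividing `n` -/
noncomputable def s (y n : ℕ) : ℝ := ∑ p ∈ n.primeFactors.filter (fun p => y < p), (p : ℝ)⁻¹

/-- truncated `φ(n)/n` -/
noncomputable def h (y n : ℕ) : ℝ := ∏ p ∈ n.primeFactors.filter (fun p => p ≤ y), (1 - (p : ℝ)⁻¹)

theorem s_nonneg (y n : ℕ) : 0 ≤ s y n := Finset.sum_nonneg fun _ _ => by positivity

theorem sum_s_le (y X : ℕ) (hy : 1 ≤ y) : ∑ n ∈ Finset.Ico 1 X, s y n ≤ 2 * X / y := by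
  have h1 : ∀ n ∈ Finset.Ico 1 X, s y n ≤ ∑ m ∈ Finset.Ioo y X, if m ∣ n then (m : ℝ)⁻¹ else 0 := by
    intro n hn
    rw [Finset.mem_Ico] at hn
    unfold s
    rw [← Finset.sum_filter]
    apply Finset.sum_le_sum_of_subset_of_nonneg
    · intro p hp
      rw [Finset.mem_filter] at hp ⊢
      have hd := Nat.dvd_of_mem_primeFactors hp.1
      have := Nat.le_of_dvd (by omega) hd
      exact ⟨Finset.mem_Ioo.2 ⟨hp.2, by omega⟩, hd⟩
    · intro _ _ _; positivity
  refine (Finset.sum_le_sum h1).trans ?_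
  rw [Finset.sum_comm]
  have h2 : ∀ m ∈ Finset.Ioo y X, (∑ n ∈ Finset.Ico 1 X, if m ∣ n then (m : ℝ)⁻¹ else 0) ≤
      X * ((m : ℝ) ^ 2)⁻¹ := by
    intro m hm
    rw [Finset.mem_Ioo] at hm
    rw [← Finset.sum_filter, Finset.sum_const, nsmul_eq_mul]
    have hcard : ((Finset.Ico 1 X).filter (fun n => m ∣ n)).card ≤ X / m := by
      have : (Finset.Ico 1 X).filter (fun n => m ∣ n) ⊆ (Finset.Ioc 0 X).filter (fun n => m ∣ n) := by
        intro n hn
        rw [Finset.mem_filter, Finset.mem_Ico] at hn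
        rw [Finset.mem_filter, Finset.mem_Ioc]
        exact ⟨⟨by omega, by omega⟩, hn.2⟩
      refine (Finset.card_le_card this).trans ?_
      rw [Nat.Ioc_filter_dvd_card_eq_div]
    have h3 : (((Finset.Ico 1 X).filter (fun n => m ∣ n)).card : ℝ) ≤ X / m :=
      (Nat.cast_le.2 hcard).trans Nat.cast_div_le
    have hm0 : (0 : ℝ) < m := by exact_mod_cast (by omega : 0 < m)
    calc (((Finset.Ico 1 X).filter (fun n => m ∣ n)).card : ℝ) * (m : ℝ)⁻¹ ≤ X / m * (m : ℝ)⁻¹ := by
          gcongr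
      _ = X * ((m : ℝ) ^ 2)⁻¹ := by field_simp
  refine (Finset.sum_le_sum h2).trans ?_
  rw [← Finset.mul_sum]
  have h4 := sum_Ioo_inv_sq_le (α := ℝ) y X
  have hy0 : (0 : ℝ) < y := by exact_mod_cast (by omega : 0 < y)
  calc (X : ℝ) * ∑ i ∈ Finset.Ioo y X, ((i : ℝ) ^ 2)⁻¹ ≤ X * (2 / (y + 1)) := by gcongr
    _ ≤ X * (2 / y) := by gcongr; linarith
    _ = 2 * X / y := by ring

/-- Markov -/
theorem card_s_gt (y X : ℕ) (hy : 1 ≤ y) (t : ℝ) (ht : 0 < t) :
    ((((Finset.Ico 1 X).filter (fun n => t < s y n)).card : ℕ) : ℝ) ≤ 2 * X / (y * t) := by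
  have h1 : ((((Finset.Ico 1 X).filter (fun n => t < s y n)).card : ℕ) : ℝ) * t ≤
      ∑ n ∈ Finset.Ico 1 X, s y n := by
    rw [← nsmul_eq_mul, ← Finset.sum_const]
    refine (Finset.sum_le_sum (fun n hn => (Finset.mem_filter.1 hn).2.le)).trans ?_
    exact Finset.sum_le_sum_of_subset_of_nonneg (Finset.filter_subset _ _)
      (fun n _ _ => s_nonneg y n)
  have h2 := h1.trans (sum_s_le y X hy)
  have hy0 : (0 : ℝ) < y := by exact_mod_cast (by omega : 0 < y)
  rw [le_div_iff₀ (by positivity)]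
  rw [le_div_iff₀ hy0] at h2
  linarith

theorem one_sub_prod_le (S : Finset ℕ) (f : ℕ → ℝ) (h0 : ∀ i ∈ S, 0 ≤ f i) (h1 : ∀ i ∈ S, f i ≤ 1) :
    1 - ∑ i ∈ S, f i ≤ ∏ i ∈ S, (1 - f i) ∧ ∏ i ∈ S, (1 - f i) ≤ 1 ∧ 0 ≤ ∏ i ∈ S, (1 - f i) := by
  classical
  induction S using Finset.induction_on with
  | empty => simp
  | insert a S ha ih =>
    rw [Finset.prod_insert ha, Finset.sum_insert ha]
    obtain ⟨i1, i2, i3⟩ := ih (fun i hi => h0 i (Finset.mem_insert_of_mem hi))
      (fun i hi => h1 i (Finset.mem_insert_of_mem hi))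
    have a0 := h0 a (Finset.mem_insert_self _ _)
    have a1 := h1 a (Finset.mem_insert_self _ _)
    refine ⟨?_, ?_, ?_⟩
    · nlinarith
    · nlinarith
    · exact mul_nonneg (by linarith) i3

theorem inv_le_one' {p n : ℕ} (hp : p ∈ n.primeFactors) : (p : ℝ)⁻¹ ≤ 1 := by
  have := (Nat.prime_of_mem_primeFactors hp).two_le
  apply inv_le_one_of_one_le₀
  exact_mod_cast (by omega : 1 ≤ p)

theorem totient_eq (n : ℕ) : (Nat.totient n : ℝ) = n * ∏ p ∈ n.primeFactors, (1 - (p : ℝ)⁻¹) := by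
  have := Nat.totient_eq_mul_prod_factors n
  have h2 := congrArg (fun q : ℚ => (q : ℝ)) this
  push_cast at h2
  exact h2

theorem h_bounds (y n : ℕ) : 0 ≤ h y n ∧ h y n ≤ 1 := by
  have := one_sub_prod_le (n.primeFactors.filter (fun p => p ≤ y)) (fun p => (p : ℝ)⁻¹)
    (fun _ _ => by positivity) (fun p hp => inv_le_one' (Finset.mem_filter.1 hp).1)
  exact ⟨this.2.2, this.2.1⟩

/-- `φ(n) ≤ n h_y(n) ≤ φ(n) + n s_y(n)` -/
theorem totient_le (y n : ℕ) : (Nat.totient n : ℝ) ≤ n * h y n ∧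
    n * h y n ≤ Nat.totient n + n * s y n := by
  have h1 := one_sub_prod_le (n.primeFactors.filter (fun p => ¬ p ≤ y)) (fun p => (p : ℝ)⁻¹)
    (fun _ _ => by positivity) (fun p hp => inv_le_one' (Finset.mem_filter.1 hp).1)
  have h2 := h_bounds y n
  have h3 : ∏ p ∈ n.primeFactors, (1 - (p : ℝ)⁻¹) =
      h y n * ∏ p ∈ n.primeFactors.filter (fun p => ¬ p ≤ y), (1 - (p : ℝ)⁻¹) := by
    unfold h
    rw [Finset.prod_filter_mul_prod_filter_not]
  have h4 : s y n = ∑ p ∈ n.primeFactors.filter (fun p => ¬ p ≤ y), (p : ℝ)⁻¹ := by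
    unfold s
    congr 1
    apply Finset.filter_congr
    intro p _
    exact not_le.symm
  rw [totient_eq, h3, h4]
  set Q := ∏ p ∈ n.primeFactors.filter (fun p => ¬ p ≤ y), (1 - (p : ℝ)⁻¹)
  set T := ∑ p ∈ n.primeFactors.filter (fun p => ¬ p ≤ y), (p : ℝ)⁻¹
  have hn : (0 : ℝ) ≤ n := by positivity
  constructor
  · apply mul_le_mul_of_nonneg_left _ hn
    nlinarith [h1.2.1, h2.1]
  · have : h y n ≤ h y n * Q + T := by
      nlinarith [h1.1, h2.1, h2.2, h1.2.1]
    nlinarith

/-- periodicity -/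
theorem h_periodic (y n : ℕ) (hn : n ≠ 0) : h y n = h y (n % y.factorial + y.factorial) := by
  unfold h
  congr 1
  ext p
  simp only [Finset.mem_filter, Nat.mem_primeFactors]
  have hf := Nat.factorial_pos y
  constructor
  · rintro ⟨⟨hp, hd, _⟩, hy⟩
    refine ⟨⟨hp, ?_, by omega⟩, hy⟩
    have h1 : p ∣ y.factorial := (Nat.Prime.dvd_factorial hp).2 hy
    exact (Nat.dvd_add_left h1).2 ((Nat.dvd_mod_iff h1).2 hd)
  · rintro ⟨⟨hp, hd, _⟩, hy⟩
    refine ⟨⟨hp, ?_, hn⟩, hy⟩
    have h1 : p ∣ y.factorial := (Nat.Prime.dvd_factorial hp).2 hy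
    exact (Nat.dvd_mod_iff h1).1 ((Nat.dvd_add_left h1).1 hd)

/-- counting in a residue class -/
theorem card_class (S : Finset ℕ) (P : ℕ) (hP : 0 < P) (a b : ℝ) (hab : a ≤ b)
    (hS : ∀ n ∈ S, a < (n : ℝ) ∧ (n : ℝ) < b) (r : ℕ) (hr : ∀ n ∈ S, n % P = r) :
    (S.card : ℝ) ≤ (b - a) / P + 1 := by
  rcases S.eq_empty_or_nonempty with rfl | hne
  · simp
    have : 0 ≤ (b - a) / P := div_nonneg (by linarith) (by positivity)
    linarith
  · set m := S.min' hne
    set M := S.max' hne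
    have hm := hS m (S.min'_mem hne)
    have hM := hS M (S.max'_mem hne)
    have hmM : m ≤ M := S.min'_le _ (S.max'_mem hne)
    have hcard : S.card ≤ (M - m) / P + 1 := by
      have hinj : Set.InjOn (fun n => (n - m) / P) (S : Set ℕ) := by
        intro u hu v hv huv
        simp only at huv
        have hu' : m ≤ u := S.min'_le _ hu
        have hv' : m ≤ v := S.min'_le _ hv
        have e1 : m % P = u % P := by rw [hr m (S.min'_mem hne), hr u hu]
        have e2 : m % P = v % P := by rw [hr m (S.min'_mem hne), hr v hv]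
        obtain ⟨c, hc⟩ := (Nat.modEq_iff_dvd' hu').1 e1
        obtain ⟨d, hd⟩ := (Nat.modEq_iff_dvd' hv').1 e2
        rw [hc, hd, Nat.mul_div_cancel_left _ hP, Nat.mul_div_cancel_left _ hP] at huv
        subst huv
        omega
      have hmaps : ∀ n ∈ S, (n - m) / P ∈ Finset.range ((M - m) / P + 1) := by
        intro n hn
        rw [Finset.mem_range, Nat.lt_succ_iff]
        exact Nat.div_le_div_right (Nat.sub_le_sub_right (S.le_max' n hn) m)
      have := Finset.card_le_card_of_injOn _ hmaps hinj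
      simpa using this
    have h1 : (((M - m) / P : ℕ) : ℝ) ≤ (b - a) / P := by
      refine (Nat.cast_div_le).trans ?_
      rw [Nat.cast_sub hmM]
      gcongr
      · exact hM.2.le
      · exact hm.1.le
    calc (S.card : ℝ) ≤ (((M - m) / P + 1 : ℕ) : ℝ) := by exact_mod_cast hcard
      _ = (((M - m) / P : ℕ) : ℝ) + 1 := by push_cast; ring
      _ ≤ (b - a) / P + 1 := by linarith

/-- The good set -/
theorem card_good (y : ℕ) (S : Finset ℕ) (x L : ℝ) (hL : 0 ≤ L)
    (hS : ∀ n ∈ S, n ≠ 0 ∧ x < n * (1 + h y n) ∧ n * (1 + h y n) < x + L) :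
    (S.card : ℝ) ≤ L + y.factorial := by
  classical
  set P := y.factorial with hPdef
  have hP : 0 < P := Nat.factorial_pos y
  have hfib : (S.card : ℝ) = ∑ r ∈ Finset.range P, ((S.filter (fun n => n % P = r)).card : ℝ) := by
    have := Finset.card_eq_sum_card_fiberwise (s := S) (t := Finset.range P) (f := fun n => n % P)
      (fun n _ => by simpa using Nat.mod_lt n hP)
    exact_mod_cast this
  rw [hfib]
  have hb : ∀ r ∈ Finset.range P, ((S.filter (fun n => n % P = r)).card : ℝ) ≤ L / P + 1 := by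
    intro r _
    have hc := h_bounds y (r + P)
    set c := 1 + h y (r + P)
    have hc1 : 1 ≤ c := by simp only [c]; linarith
    have := card_class (S.filter (fun n => n % P = r)) P hP (x / c) ((x + L) / c)
      (by gcongr; linarith) (by
        intro n hn
        rw [Finset.mem_filter] at hn
        obtain ⟨h0, h1, h2⟩ := hS n hn.1
        have hper := h_periodic y n h0
        rw [← hPdef, hn.2] at hper
        rw [hper] at h1 h2
        constructor
        · rw [div_lt_iff₀ (by linarith)]; exact h1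
        · rw [lt_div_iff₀ (by linarith)]; exact h2) r (by
        intro n hn
        exact (Finset.mem_filter.1 hn).2)
    refine this.trans ?_
    have hP' : (0 : ℝ) < P := by exact_mod_cast hP
    have : (x + L) / c - x / c = L / c := by ring
    rw [this]
    have : L / c ≤ L := div_le_self hL hc1
    gcongr
  refine (Finset.sum_le_sum hb).trans ?_
  have hP' : (0 : ℝ) < P := by exact_mod_cast hP
  rw [Finset.sum_const, Finset.card_range, nsmul_eq_mul]
  apply le_of_eq
  field_simp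

/-- The set counted in the problem. -/
def cntSet (x : ℕ) (F : ℝ) : Set ℕ :=
  {n : ℕ | (x : ℝ) < (n : ℝ) + (Nat.totient n : ℝ) ∧ (n : ℝ) + (Nat.totient n : ℝ) < (x : ℝ) + F}

theorem main_bound (k x : ℕ) (hk : 1 ≤ k) (hx : k * (k ^ 2).factorial ≤ x) :
    ((cntSet x ((x : ℝ) / k)).ncard : ℝ) ≤ 20 * ((x : ℝ) / k) := by
  classical
  have hk0 : (0 : ℝ) < k := by exact_mod_cast (by omega : 0 < k)
  have hk1 : (1 : ℝ) ≤ k := by exact_mod_cast hk
  set X := 2 * x + 1 with hX
  have hxk : (x : ℝ) / k ≤ x := div_le_self (by positivity) hk1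
  -- the two pieces
  set B := (Finset.Ico 1 X).filter (fun n : ℕ => (1 / k : ℝ) < s (k ^ 2) n) with hB
  set G := (Finset.Ico 1 X).filter (fun n : ℕ => ((x : ℝ) < (n : ℝ) + (Nat.totient n : ℝ) ∧
    (n : ℝ) + (Nat.totient n : ℝ) < (x : ℝ) + (x : ℝ) / k) ∧ ¬ (1 / k : ℝ) < s (k ^ 2) n) with hG
  have hsub : cntSet x ((x : ℝ) / k) ⊆ ((B ∪ G : Finset ℕ) : Set ℕ) := by
    intro n hn
    have hn1 : 1 ≤ n := by
      rcases Nat.eq_zero_or_pos n with h0 | h0
      · subst h0
        simp only [cntSet, Set.mem_ofPred_eq] at hn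
        have := hn.1
        simp at this
        have h2 : (0 : ℝ) ≤ x := by positivity
        linarith
      · exact h0
    have hn2 : n < X := by
      simp only [cntSet, Set.mem_ofPred_eq] at hn
      have h1 : (0 : ℝ) ≤ Nat.totient n := by positivity
      have h2 : (n : ℝ) < 2 * x := by linarith [hn.2]
      have h3 : n < 2 * x := by exact_mod_cast h2
      omega
    simp only [Finset.coe_union, Set.mem_union, Finset.mem_coe]
    by_cases hs : (1 / k : ℝ) < s (k ^ 2) n
    · left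
      rw [hB, Finset.mem_filter]
      exact ⟨Finset.mem_Ico.2 ⟨hn1, hn2⟩, hs⟩
    · right
      rw [hG, Finset.mem_filter]
      exact ⟨Finset.mem_Ico.2 ⟨hn1, hn2⟩, hn, hs⟩
  have hcard : (cntSet x ((x : ℝ) / k)).ncard ≤ B.card + G.card := by
    refine (Set.ncard_le_ncard hsub (Finset.finite_toSet _)).trans ?_
    rw [Set.ncard_coe_finset]
    exact Finset.card_union_le _ _
  have hBc : (B.card : ℝ) ≤ 6 * (x / k) := by
    have h1 := card_s_gt (k ^ 2) X (Nat.one_le_pow _ _ (by omega)) (1 / k) (by positivity)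
    refine h1.trans ?_
    rw [hX]
    push_cast
    have hx1 : (1 : ℝ) ≤ x := by
      have : 1 ≤ x := by
        have := Nat.factorial_pos (k ^ 2)
        nlinarith
      exact_mod_cast this
    rw [div_le_iff₀ (by positivity)]
    field_simp
    nlinarith
  have hGc : (G.card : ℝ) ≤ 5 * (x / k) + (k ^ 2).factorial := by
    apply card_good (k ^ 2) G x (5 * (x / k)) (by positivity)
    intro n hn
    rw [hG, Finset.mem_filter, Finset.mem_Ico] at hn
    obtain ⟨⟨hn1, hn2⟩, ⟨h1, h2⟩, h3⟩ := hn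
    obtain ⟨t1, t2⟩ := totient_le (k ^ 2) n
    refine ⟨by omega, by nlinarith, ?_⟩
    have hnx : (n : ℝ) ≤ 2 * x := by
      have : n ≤ 2 * x := by omega
      exact_mod_cast this
    have hs : (n : ℝ) * s (k ^ 2) n ≤ 2 * x * (1 / k) := by
      apply mul_le_mul hnx (not_lt.1 h3) (s_nonneg _ _) (by positivity)
    have hx1 : (1 : ℝ) ≤ x := by
      have : 1 ≤ x := by
        have := Nat.factorial_pos (k ^ 2)
        nlinarith
      exact_mod_cast this
    have hpos : 0 < (x : ℝ) / k := by positivity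
    have : 2 * (x : ℝ) * (1 / k) = 2 * (x / k) := by ring
    nlinarith
  have hfac : (((k ^ 2).factorial : ℕ) : ℝ) ≤ x / k := by
    rw [le_div_iff₀ hk0]
    have : (((k ^ 2).factorial * k : ℕ) : ℝ) ≤ x := by
      exact_mod_cast (by linarith : (k ^ 2).factorial * k ≤ x)
    simpa using this
  have hfin : ((cntSet x ((x : ℝ) / k)).ncard : ℝ) ≤ B.card + G.card := by exact_mod_cast hcard
  have : 0 ≤ (x : ℝ) / k := by positivity
  linarith

end Pool.Agent.H813R3.Tot
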