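import Mathlib
import Pool.Agent.H813R3.TotA

set_option autoImplicit false
open Filter Topology

namespace Pool.Agent.H813R3.Tot

/-- the slowly growing function -/
noncomputable def K (x : ℕ) : ℕ := Nat.findGreatest (fun k => k * (k ^ 2).factorial ≤ x) x

theorem K_spec (x : ℕ) : K x * ((K x) ^ 2).factorial ≤ x := by
  have := Nat.findGreatest_spec (P := fun k => k * (k ^ 2).factorial ≤ x) (Nat.zero_le x) (by simp)
  exact this

theorem le_K {k x : ℕ} (h : k * (k ^ 2).factorial ≤ x) : k ≤ K x := by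
  have h1 := Nat.factorial_pos (k ^ 2)
  have h2 : k ≤ x := by nlinarith
  exact Nat.le_findGreatest (P := fun k => k * (k ^ 2).factorial ≤ x) h2 h

theorem K_tendsto : Tendsto K atTop atTop := by
  rw [tendsto_atTop]
  intro b
  filter_upwards [eventually_ge_atTop (b * (b ^ 2).factorial)] with x hx
  exact le_K hx

/-- The function `F`. -/
noncomputable def F (x : ℕ) : ℝ := (x : ℝ) / K x

theorem F_tendsto : Tendsto F atTop atTop := by
  have hK : Tendsto (fun x => (K x : ℝ)) atTop atTop := tendsto_natCast_atTop_atTop.comp K_tendsto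
  apply tendsto_atTop_mono' _ _ hK
  filter_upwards [K_tendsto.eventually_ge_atTop 1] with x hx
  have h1 := K_spec x
  have h2 : K x ≤ ((K x) ^ 2).factorial := by
    refine le_trans ?_ (Nat.self_le_factorial _)
    nlinarith
  unfold F
  have h0 : (0 : ℝ) < K x := by exact_mod_cast hx
  rw [le_div_iff₀ h0]
  have : K x * K x ≤ x := by nlinarith
  exact_mod_cast this

/-- The set `A`. -/
def A : Set ℕ := {n | s 1 n ≤ Real.log (K n) / 4}

theorem totient_ge (n : ℕ) : n * Real.exp (- (2 * s 1 n)) ≤ Nat.totient n := by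
  rw [totient_eq]
  apply mul_le_mul_of_nonneg_left _ (by positivity)
  have hs : s 1 n = ∑ p ∈ n.primeFactors, (p : ℝ)⁻¹ := by
    unfold s
    congr 1
    apply Finset.filter_true_of_mem
    intro p hp
    exact (Nat.prime_of_mem_primeFactors hp).one_lt
  rw [hs, Finset.mul_sum, ← Finset.sum_neg_distrib, Real.exp_sum]
  apply Finset.prod_le_prod
  · intro _ _; positivity
  · intro p hp
    have hp2 : (2 : ℝ) ≤ p := by exact_mod_cast (Nat.prime_of_mem_primeFactors hp).two_le
    set u := (p : ℝ)⁻¹ with hu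
    have hu0 : 0 ≤ u := by positivity
    have hu1 : u ≤ 1 / 2 := by
      rw [hu, one_div]
      exact inv_anti₀ (by norm_num) hp2
    rw [Real.exp_neg]
    have h1 : 1 + 2 * u ≤ Real.exp (2 * u) := by linarith [Real.add_one_le_exp (2 * u)]
    have h2 : (Real.exp (2 * u))⁻¹ ≤ (1 + 2 * u)⁻¹ := inv_anti₀ (by linarith) h1
    refine h2.trans ?_
    rw [inv_le_iff_one_le_mul₀ (by linarith)]
    nlinarith

theorem A_ratio : Tendsto (fun n : ℕ => F n / (Nat.totient n : ℝ)) (atTop ⊓ 𝓟 A) (𝓝 0) := by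
  have hK : Tendsto (fun x => (K x : ℝ)) (atTop ⊓ 𝓟 A) atTop :=
    (tendsto_natCast_atTop_atTop.comp K_tendsto).mono_left inf_le_left
  have hlim : Tendsto (fun n : ℕ => Real.exp (- (Real.log (K n) / 2))) (atTop ⊓ 𝓟 A) (𝓝 0) := by
    apply Real.tendsto_exp_neg_atTop_nhds_zero.comp
    exact (Real.tendsto_log_atTop.comp hK).atTop_div_const (by norm_num)
  refine squeeze_zero' ?_ ?_ hlim
  · exact Eventually.of_forall fun n => by unfold F; positivity
  · have h1 : ∀ᶠ n in (atTop ⊓ 𝓟 A), 1 ≤ n := (eventually_ge_atTop 1).filter_mono inf_le_left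
    have h2 : ∀ᶠ n in (atTop ⊓ 𝓟 A), 1 ≤ K n := (K_tendsto.eventually_ge_atTop 1).filter_mono inf_le_left
    have h3 : ∀ᶠ n in (atTop ⊓ 𝓟 A), n ∈ A := eventually_inf_principal.2 (Eventually.of_forall fun _ h => h)
    filter_upwards [h1, h2, h3] with n hn hk hA
    have ht := totient_ge n
    have hn0 : (0 : ℝ) < n := by exact_mod_cast hn
    have hk0 : (0 : ℝ) < K n := by exact_mod_cast hk
    have hA' : s 1 n ≤ Real.log (K n) / 4 := hA
    have h4 : n * Real.exp (- (Real.log (K n) / 2)) ≤ Nat.totient n := by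
      refine le_trans ?_ ht
      apply mul_le_mul_of_nonneg_left _ hn0.le
      apply Real.exp_le_exp.2
      linarith
    have hpos : 0 < n * Real.exp (- (Real.log (K n) / 2)) := by positivity
    have h5 : F n / (Nat.totient n : ℝ) ≤ F n / (n * Real.exp (- (Real.log (K n) / 2))) := by
      apply div_le_div_of_nonneg_left _ hpos h4
      unfold F; positivity
    refine h5.trans (le_of_eq ?_)
    unfold F
    have h6 : Real.exp (- (Real.log (K n) / 2)) * Real.exp (- (Real.log (K n) / 2)) = (K n : ℝ)⁻¹ := by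
      rw [← Real.exp_add]
      have : -(Real.log (K n) / 2) + -(Real.log (K n) / 2) = - Real.log (K n) := by ring
      rw [this, Real.exp_neg, Real.exp_log hk0]
    have he : Real.exp (- (Real.log (K n) / 2)) ≠ 0 := (Real.exp_pos _).ne'
    rw [div_div, div_eq_iff (by positivity)]
    calc (n : ℝ) = n * (K n * (K n : ℝ)⁻¹) := by field_simp
      _ = _ := by rw [← h6]; ring

theorem A_density :
    Tendsto (fun N : ℕ => ((A ∩ Set.Iio N).ncard : ℝ) / (N : ℝ)) atTop (𝓝 1) := by
  classical
  -- complement count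
  set B : ℕ → ℕ := fun N => ((Finset.range N).filter (fun n => n ∉ A)).card with hB
  have hsum : ∀ N, (A ∩ Set.Iio N).ncard + B N = N := by
    intro N
    have h1 : A ∩ Set.Iio N = (((Finset.range N).filter (fun n => n ∈ A) : Finset ℕ) : Set ℕ) := by
      ext n
      simp [and_comm]
    rw [h1, Set.ncard_coe_finset, hB]
    have := Finset.card_filter_add_card_filter_not (s := Finset.range N) (fun n => n ∈ A)
    simpa using this
  have hB0 : Tendsto (fun N : ℕ => (B N : ℝ) / N) atTop (𝓝 0) := by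
    rw [Metric.tendsto_atTop]
    intro ε hε
    set T : ℝ := 4 / ε + 1 with hT
    have hT0 : 0 < T := by positivity
    have hev : ∀ᶠ n in atTop, T ≤ Real.log (K n) / 4 := by
      have : Tendsto (fun n => Real.log (K n) / 4) atTop atTop :=
        (Real.tendsto_log_atTop.comp (tendsto_natCast_atTop_atTop.comp K_tendsto)).atTop_div_const
          (by norm_num)
      exact this.eventually_ge_atTop T
    obtain ⟨n0, hn0⟩ := eventually_atTop.1 hev
    obtain ⟨N1, hN1⟩ := exists_nat_gt (2 * (n0 + 1 : ℝ) / ε)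
    refine ⟨N1 + 1, fun N hN => ?_⟩
    have hN0 : (0 : ℝ) < N := by exact_mod_cast (by omega : 0 < N)
    rw [Real.dist_eq, sub_zero, abs_of_nonneg (by positivity), div_lt_iff₀ hN0]
    have hsub : (Finset.range N).filter (fun n => n ∉ A) ⊆
        Finset.range (n0 + 1) ∪ (Finset.Ico 1 N).filter (fun n => T < s 1 n) := by
      intro n hn
      rw [Finset.mem_filter, Finset.mem_range] at hn
      rw [Finset.mem_union, Finset.mem_range]
      by_cases hc : n < n0 + 1
      · exact Or.inl hc
      · right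
        rw [Finset.mem_filter, Finset.mem_Ico]
        refine ⟨⟨by omega, hn.1⟩, ?_⟩
        have h1 := hn0 n (by omega)
        have h2 : ¬ (s 1 n ≤ Real.log (K n) / 4) := hn.2
        linarith [not_le.1 h2]
    have hc1 : B N ≤ (n0 + 1) + ((Finset.Ico 1 N).filter (fun n => T < s 1 n)).card := by
      refine (Finset.card_le_card hsub).trans ?_
      refine (Finset.card_union_le _ _).trans ?_
      rw [Finset.card_range]
    have hc2 := card_s_gt 1 N le_rfl T hT0
    have hc3 : (B N : ℝ) ≤ (n0 + 1) + 2 * N / (((1 : ℕ) : ℝ) * T) := by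
      have : (B N : ℝ) ≤ (n0 + 1) + (((Finset.Ico 1 N).filter (fun n => T < s 1 n)).card : ℝ) := by
        exact_mod_cast hc1
      linarith
    have h7 : 2 * (N : ℝ) / (((1 : ℕ) : ℝ) * T) < ε / 2 * N := by
      rw [div_lt_iff₀ (by positivity)]
      have : ε / 2 * T = 2 + ε / 2 := by rw [hT]; field_simp; ring
      push_cast
      nlinarith
    have h8 : (n0 + 1 : ℝ) < ε / 2 * N := by
      rw [div_lt_iff₀ hε] at hN1
      have : (N1 : ℝ) ≤ N := by exact_mod_cast (by omega : N1 ≤ N)
      nlinarith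
    linarith
  have heq : (fun N : ℕ => ((A ∩ Set.Iio N).ncard : ℝ) / (N : ℝ)) =ᶠ[atTop]
      fun N : ℕ => 1 - (B N : ℝ) / N := by
    filter_upwards [eventually_ge_atTop 1] with N hN
    have hN0 : (0 : ℝ) < N := by exact_mod_cast hN
    have h1 : (((A ∩ Set.Iio N).ncard : ℕ) : ℝ) + B N = N := by exact_mod_cast hsum N
    field_simp
    linarith
  rw [tendsto_congr' heq]
  have := hB0.const_sub 1
  simpa using this

theorem final : ∃ F : ℕ → ℝ, Tendsto F atTop atTop ∧
      (∃ A : Set ℕ,
        Tendsto (fun N : ℕ => ((A ∩ Set.Iio N).ncard : ℝ) / (N : ℝ)) atTop (𝓝 1) ∧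
        Tendsto (fun n : ℕ => F n / (Nat.totient n : ℝ)) (atTop ⊓ 𝓟 A) (𝓝 0)) ∧
      ¬ (∀ C : ℝ, Set.Infinite {x : ℕ |
          ((Set.ncard {n : ℕ | (x : ℝ) < (n : ℝ) + (Nat.totient n : ℝ) ∧
              (n : ℝ) + (Nat.totient n : ℝ) < (x : ℝ) + F x} : ℕ) : ℝ) > C * F x}) := by
  refine ⟨F, F_tendsto, ⟨A, A_density, A_ratio⟩, fun hall => ?_⟩
  apply hall 20
  obtain ⟨x0, hx0⟩ := eventually_atTop.1 (K_tendsto.eventually_ge_atTop 1)
  apply (Set.finite_Iio x0).subset
  intro x hx
  rw [Set.mem_Iio]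
  by_contra hcon
  have h1 := main_bound (K x) x (hx0 x (not_lt.1 hcon)) (K_spec x)
  simp only [Set.mem_ofPred_eq, gt_iff_lt] at hx
  exact absurd h1 (not_le.2 hx)

end Pool.Agent.H813R3.Tot
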